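import Mathlib

open Finset Filter Topology
open scoped ENNReal

namespace Pool.Agent.V1185.GB

/-- `l` is a `Λ`-sequence (`l i` stands for `λ_{i+1}`): positive, non-decreasing,
`∑ 1/λ_i = ∞`. -/
def LambdaSeq (l : ℕ → ℝ) : Prop :=
  (∀ i, 0 < l i) ∧ Monotone l ∧ Tendsto (fun n => ∑ i ∈ range n, 1 / l i) atTop atTop

/-- The `n` closed intervals `[s i, t i]`, `i < n`, are non-overlapping subintervals of `[a, b]`. -/
def Family (a b : ℝ) (n : ℕ) (s t : ℕ → ℝ) : Prop :=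
  (∀ i < n, a ≤ s i ∧ s i ≤ t i ∧ t i ≤ b) ∧
    ∀ i < n, ∀ j < n, i ≠ j → t i ≤ s j ∨ t j ≤ s i

/-- Waterman's `Λ`-variation of `f` on `[a, b]`. -/
noncomputable def variation (a b : ℝ) (l : ℕ → ℝ) (f : ℝ → ℝ) : ℝ≥0∞ :=
  ⨆ (n : ℕ) (s : ℕ → ℝ) (t : ℕ → ℝ) (_ : Family a b n s t),
    ENNReal.ofReal (∑ i ∈ range n, |f (t i) - f (s i)| / l i)

/-- `f ∈ ΛBV`. -/
def BV (a b : ℝ) (l : ℕ → ℝ) (f : ℝ → ℝ) : Prop := variation a b l f ≠ ⊤

/-- `f ∈ ΛBV_c`: `f ∈ ΛBV` is continuous in `Λ`-variation. -/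
def BVc (a b : ℝ) (l : ℕ → ℝ) (f : ℝ → ℝ) : Prop :=
  BV a b l f ∧ Tendsto (fun m : ℕ => variation a b (fun i => l (i + m)) f) atTop (𝓝 0)

/-- The criterion on the two sequences. -/
def Criterion (g l : ℕ → ℝ) : Prop :=
  ∀ ε : ℝ, 0 < ε → ∃ K : ℕ, 1 ≤ K ∧ ∃ n₀ : ℕ, ∀ n ≥ n₀,
    ∑ i ∈ range (K * n), 1 / l i ≤ ε * K * ∑ i ∈ range n, 1 / g i

theorem variation_le_iff {a b : ℝ} {l : ℕ → ℝ} {f : ℝ → ℝ} {c : ℝ} (hc : 0 ≤ c) :
    variation a b l f ≤ ENNReal.ofReal c ↔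
      ∀ n s t, Family a b n s t → ∑ i ∈ range n, |f (t i) - f (s i)| / l i ≤ c := by
  unfold variation
  simp only [iSup_le_iff]
  constructor
  · intro h n s t hF
    exact (ENNReal.ofReal_le_ofReal_iff hc).1 (h n s t hF)
  · intro h n s t hF
    exact ENNReal.ofReal_le_ofReal (h n s t hF)

theorem bv_iff {a b : ℝ} {l : ℕ → ℝ} {f : ℝ → ℝ} :
    BV a b l f ↔ ∃ C, 0 ≤ C ∧
      ∀ n s t, Family a b n s t → ∑ i ∈ range n, |f (t i) - f (s i)| / l i ≤ C := by
  constructor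
  · intro h
    refine ⟨(variation a b l f).toReal, ENNReal.toReal_nonneg, ?_⟩
    apply (variation_le_iff ENNReal.toReal_nonneg).1
    rw [ENNReal.ofReal_toReal h]
  · rintro ⟨C, hC, h⟩
    have := (variation_le_iff hC).2 h
    intro htop
    rw [htop] at this
    exact absurd this (by simp)

theorem not_tendsto_of {a b : ℝ} {l : ℕ → ℝ} {f : ℝ → ℝ} {c : ℝ} (hc : 0 < c)
    (h : ∀ m : ℕ, ∃ n s t, Family a b n s t ∧
      c ≤ ∑ i ∈ range n, |f (t i) - f (s i)| / l (i + m)) :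
    ¬ Tendsto (fun m : ℕ => variation a b (fun i => l (i + m)) f) atTop (𝓝 0) := by
  intro ht
  rw [ENNReal.tendsto_atTop_zero] at ht
  obtain ⟨N, hN⟩ := ht (ENNReal.ofReal (c / 2)) (by simp [hc])
  obtain ⟨n, s, t, hF, hs⟩ := h N
  have h1 := (variation_le_iff (by positivity)).1 (hN N le_rfl) n s t hF
  linarith

theorem tendsto_of {a b : ℝ} {l : ℕ → ℝ} {f : ℝ → ℝ} (hl : LambdaSeq l)
    (h : ∀ c : ℝ, 0 < c → ∃ m : ℕ, ∀ n s t, Family a b n s t →
      ∑ i ∈ range n, |f (t i) - f (s i)| / l (i + m) ≤ c) :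
    Tendsto (fun m : ℕ => variation a b (fun i => l (i + m)) f) atTop (𝓝 0) := by
  rw [ENNReal.tendsto_atTop_zero]
  intro ε hε
  by_cases htop : ε = ⊤
  · exact ⟨0, fun n _ => by rw [htop]; exact le_top⟩
  have hpos : 0 < ε.toReal := ENNReal.toReal_pos hε.ne' htop
  obtain ⟨m, hm⟩ := h ε.toReal hpos
  refine ⟨m, fun m' hm' => ?_⟩
  rw [← ENNReal.ofReal_toReal htop]
  rw [variation_le_iff hpos.le]
  intro n s t hF
  refine le_trans ?_ (hm n s t hF)
  apply Finset.sum_le_sum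
  intro i _
  exact div_le_div_of_nonneg_left (abs_nonneg _) (hl.1 _) (hl.2.1 (by omega))

/-- Families indexed by an arbitrary finite set with injective ranks. -/
theorem sum_le_of_rank {a b : ℝ} {l : ℕ → ℝ} {f : ℝ → ℝ} {C : ℝ} (hab : a ≤ b)
    (hC : ∀ n s t, Family a b n s t → ∑ i ∈ range n, |f (t i) - f (s i)| / l i ≤ C)
    {ι : Type*} [DecidableEq ι] (T : Finset ι) (s t : ι → ℝ) (r : ι → ℕ)
    (hr : ∀ x ∈ T, ∀ y ∈ T, r x = r y → x = y)
    (h1 : ∀ x ∈ T, a ≤ s x ∧ s x ≤ t x ∧ t x ≤ b)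
    (h2 : ∀ x ∈ T, ∀ y ∈ T, x ≠ y → t x ≤ s y ∨ t y ≤ s x) :
    ∑ x ∈ T, |f (t x) - f (s x)| / l (r x) ≤ C := by
  classical
  let n := (T.sup r) + 1
  let S : ℕ → ℝ := fun i => if h : ∃ x ∈ T, r x = i then s h.choose else a
  let U : ℕ → ℝ := fun i => if h : ∃ x ∈ T, r x = i then t h.choose else a
  have hS : ∀ x ∈ T, S (r x) = s x := by
    intro x hx
    have h : ∃ y ∈ T, r y = r x := ⟨x, hx, rfl⟩
    have : h.choose = x := hr _ h.choose_spec.1 _ hx h.choose_spec.2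
    simp only [S, dif_pos h, this]
  have hU : ∀ x ∈ T, U (r x) = t x := by
    intro x hx
    have h : ∃ y ∈ T, r y = r x := ⟨x, hx, rfl⟩
    have : h.choose = x := hr _ h.choose_spec.1 _ hx h.choose_spec.2
    simp only [U, dif_pos h, this]
  have hS0 : ∀ i, (¬ ∃ x ∈ T, r x = i) → S i = a ∧ U i = a := by
    intro i hi
    simp only [S, U, dif_neg hi, and_self]
  have hF : Family a b n S U := by
    constructor
    · intro i _
      by_cases h : ∃ x ∈ T, r x = i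
      · obtain ⟨x, hx, rfl⟩ := h
        rw [hS x hx, hU x hx]; exact h1 x hx
      · rw [(hS0 i h).1, (hS0 i h).2]; exact ⟨le_rfl, le_rfl, hab⟩
    · intro i _ j _ hij
      by_cases h : ∃ x ∈ T, r x = i
      · obtain ⟨x, hx, rfl⟩ := h
        by_cases h' : ∃ y ∈ T, r y = j
        · obtain ⟨y, hy, rfl⟩ := h'
          rw [hS x hx, hU x hx, hS y hy, hU y hy]
          exact h2 x hx y hy (fun hxy => hij (by rw [hxy]))
        · right
          rw [(hS0 j h').2, hS x hx]; exact (h1 x hx).1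
      · by_cases h' : ∃ y ∈ T, r y = j
        · obtain ⟨y, hy, rfl⟩ := h'
          left
          rw [(hS0 i h).2, hS y hy]; exact (h1 y hy).1
        · left
          rw [(hS0 i h).2, (hS0 j h').1]
  refine le_trans (le_of_eq ?_) (hC n S U hF)
  have himg : T.image r ⊆ range n := by
    intro i hi
    obtain ⟨x, hx, rfl⟩ := Finset.mem_image.1 hi
    rw [Finset.mem_range]
    exact Nat.lt_succ_of_le (Finset.le_sup hx)
  rw [← Finset.sum_subset himg]
  · rw [Finset.sum_image (fun x hx y hy h => hr x hx y hy h)]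
    apply Finset.sum_congr rfl
    intro x hx
    rw [hS x hx, hU x hx]
  · intro i _ hi
    have : ¬ ∃ x ∈ T, r x = i := by
      rintro ⟨x, hx, rfl⟩
      exact hi (Finset.mem_image_of_mem _ hx)
    rw [(hS0 i this).1, (hS0 i this).2]
    simp

/-- Abel-type comparison. -/
theorem majorize {N : ℕ} {a x y : ℕ → ℝ} (ha : ∀ i, 0 ≤ a i) (ha' : Antitone a)
    (h : ∀ n ≤ N, ∑ i ∈ range n, x i ≤ ∑ i ∈ range n, y i) :
    ∑ i ∈ range N, a i * x i ≤ ∑ i ∈ range N, a i * y i := by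
  have key : ∀ n ≤ N, a n * (∑ i ∈ range n, y i - ∑ i ∈ range n, x i) ≤
      ∑ i ∈ range n, a i * y i - ∑ i ∈ range n, a i * x i := by
    intro n
    induction n with
    | zero => intro _; simp
    | succ n ih =>
      intro hn
      have h1 := ih (by omega)
      have h2 := h (n + 1) hn
      rw [Finset.sum_range_succ (fun i => a i * y i), Finset.sum_range_succ (fun i => a i * x i)]
      have h3 : a (n + 1) * (∑ i ∈ range (n + 1), y i - ∑ i ∈ range (n + 1), x i) ≤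
          a n * (∑ i ∈ range (n + 1), y i - ∑ i ∈ range (n + 1), x i) :=
        mul_le_mul_of_nonneg_right (ha' (Nat.le_succ n)) (by linarith)
      refine le_trans h3 ?_
      rw [Finset.sum_range_succ, Finset.sum_range_succ]
      nlinarith
  have h1 := key N le_rfl
  have h2 : 0 ≤ a N * (∑ i ∈ range N, y i - ∑ i ∈ range N, x i) :=
    mul_nonneg (ha N) (by linarith [h N le_rfl])
  linarith

end Pool.Agent.V1185.GB
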