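import Pool.Agent.V1185.GB.Suff

open Finset Filter Topology
open scoped ENNReal

namespace Pool.Agent.V1185.GB

/-- Partial sums of reciprocals. -/
noncomputable def S (l : ℕ → ℝ) (n : ℕ) : ℝ := ∑ i ∈ range n, 1 / l i

theorem S_mono {l : ℕ → ℝ} (hl : LambdaSeq l) : Monotone (S l) := by
  intro m n hmn
  apply Finset.sum_le_sum_of_subset_of_nonneg
  · exact Finset.range_subset_range.2 hmn
  · intro i _ _; exact (one_div_pos.2 (hl.1 _)).le

theorem S_pos {l : ℕ → ℝ} (hl : LambdaSeq l) {n : ℕ} (hn : 1 ≤ n) : 0 < S l n := by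
  apply Finset.sum_pos
  · intro i _; exact one_div_pos.2 (hl.1 _)
  · exact ⟨0, Finset.mem_range.2 (by omega)⟩

theorem S_nonneg {l : ℕ → ℝ} (hl : LambdaSeq l) (n : ℕ) : 0 ≤ S l n :=
  Finset.sum_nonneg (fun i _ => (one_div_pos.2 (hl.1 _)).le)

/-- The total length of non-overlapping intervals. -/
theorem sum_len {a b : ℝ} (hab : a ≤ b) {n : ℕ} {s t : ℕ → ℝ} (hF : Family a b n s t) :
    ∑ i ∈ range n, (t i - s i) ≤ b - a := by
  have h1 : MeasureTheory.volume (⋃ i ∈ range n, Set.Ioo (s i) (t i)) =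
      ∑ i ∈ range n, MeasureTheory.volume (Set.Ioo (s i) (t i)) := by
    apply MeasureTheory.measure_biUnion_finset
    · intro i hi j hj hij
      rw [Function.onFun, Set.disjoint_left]
      intro x hx hx'
      rw [Finset.mem_coe, Finset.mem_range] at hi hj
      rcases hF.2 i hi j hj hij with h | h
      · linarith [hx.2, hx'.1]
      · linarith [hx'.2, hx.1]
    · intro i _; exact measurableSet_Ioo
  have h2 : MeasureTheory.volume (⋃ i ∈ range n, Set.Ioo (s i) (t i)) ≤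
      MeasureTheory.volume (Set.Icc a b) := by
    apply MeasureTheory.measure_mono
    intro x hx
    simp only [Set.mem_iUnion, Finset.mem_range] at hx
    obtain ⟨i, hi, hx⟩ := hx
    exact ⟨by linarith [(hF.1 i hi).1, hx.1], by linarith [(hF.1 i hi).2.2, hx.2]⟩
  rw [h1, Real.volume_Icc] at h2
  simp only [Real.volume_Ioo] at h2
  rw [← ENNReal.ofReal_sum_of_nonneg] at h2
  · exact (ENNReal.ofReal_le_ofReal_iff (by linarith)).1 h2
  · intro i hi
    rw [Finset.mem_range] at hi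
    linarith [(hF.1 i hi).2.1]

/-- The bath-tub bound. -/
theorem bath {g x : ℕ → ℝ} (hg : LambdaSeq g) {n n' : ℕ} (hn' : 1 ≤ n')
    (hx0 : ∀ i < n, 0 ≤ x i) (hx1 : ∀ i < n, x i ≤ 1) :
    ∑ i ∈ range n, x i / g i ≤ S g n' * (1 + (∑ i ∈ range n, x i) / n') := by
  have hn'r : (0:ℝ) < n' := by exact_mod_cast hn'
  have h1 : ∀ i ∈ range n, x i / g i ≤
      (if i < n' then 1 / g i else 0) + x i * (S g n' / n') := by
    intro i hi
    rw [Finset.mem_range] at hi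
    have hgi := hg.1 i
    by_cases h : i < n'
    · rw [if_pos h]
      have h2 : x i / g i ≤ 1 / g i := div_le_div_of_nonneg_right (hx1 i hi) hgi.le
      have h3 : 0 ≤ x i * (S g n' / n') :=
        mul_nonneg (hx0 i hi) (div_nonneg (S_nonneg hg _) hn'r.le)
      linarith
    · rw [if_neg h, zero_add]
      have h2 : (n':ℝ) * (1 / g i) ≤ S g n' := by
        calc (n':ℝ) * (1 / g i) = ∑ k ∈ range n', 1 / g i := by
              rw [Finset.sum_const, Finset.card_range, nsmul_eq_mul]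
          _ ≤ S g n' := by
              apply Finset.sum_le_sum
              intro k hk
              rw [Finset.mem_range] at hk
              exact one_div_le_one_div_of_le (hg.1 _) (hg.2.1 (by omega))
      have h3 : 1 / g i ≤ S g n' / n' := by
        rw [le_div_iff₀ hn'r]; linarith
      calc x i / g i = x i * (1 / g i) := by ring
        _ ≤ x i * (S g n' / n') := mul_le_mul_of_nonneg_left h3 (hx0 i hi)
  refine le_trans (Finset.sum_le_sum h1) ?_
  rw [Finset.sum_add_distrib, ← Finset.sum_filter, ← Finset.sum_mul]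
  have h2 : ∑ i ∈ (range n).filter (fun i => i < n'), 1 / g i ≤ S g n' := by
    apply Finset.sum_le_sum_of_subset_of_nonneg
    · intro i hi
      rw [Finset.mem_filter] at hi
      exact Finset.mem_range.2 hi.2
    · intro i _ _; exact (one_div_pos.2 (hg.1 _)).le
  have h3 : (∑ i ∈ range n, x i) * (S g n' / n') = S g n' * ((∑ i ∈ range n, x i) / n') := by
    ring
  rw [h3]
  linarith

/-- Data used in the construction. -/
structure Data (g l : ℕ → ℝ) (ε : ℝ) (N k : ℕ → ℕ) : Prop where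
  N0 : N 0 = 1
  Ns : ∀ p, N (p + 1) = 2 * N p * 2 ^ (p + 1) * k p
  k1 : ∀ p, 1 ≤ k p
  ha : ∀ p, ε * ((2 * N p * 2 ^ (p + 1) : ℕ) : ℝ) * S g (k p) ≤ S l (N (p + 1))
  hb : ∀ p, 2 ^ (p + 1) * (N p : ℝ) ≤ S l (N (p + 1))
  hc : ∀ p, 8 * 2 ^ p * ((N p : ℝ) / S l (N p)) * S l (N (p + 1)) ≤ N (p + 1)

theorem exists_data {g l : ℕ → ℝ} (hl : LambdaSeq l)
    (hlt : Tendsto l atTop atTop) (hcr : ¬ Criterion g l) :
    ∃ ε : ℝ, 0 < ε ∧ ∃ N k, Data g l ε N k := by
  unfold Criterion at hcr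
  push Not at hcr
  obtain ⟨ε, hε, hbad⟩ := hcr
  refine ⟨ε, hε, ?_⟩
  have hces : Tendsto (fun n : ℕ => (n:ℝ)⁻¹ * ∑ i ∈ range n, 1 / l i) atTop (𝓝 0) := by
    have h1 : Tendsto (fun i => 1 / l i) atTop (𝓝 0) := by
      simp only [one_div]
      exact tendsto_inv_atTop_zero.comp hlt
    exact h1.cesaro
  have hcond : ∀ (q : ℕ × ℕ), ∃ n : ℕ, 1 ≤ n ∧ (1 ≤ q.2 →
      ε * ((2 * q.2 * 2 ^ (q.1 + 1) : ℕ) : ℝ) * S g n ≤
        S l (2 * q.2 * 2 ^ (q.1 + 1) * n) ∧
      2 ^ (q.1 + 1) * (q.2 : ℝ) ≤ S l (2 * q.2 * 2 ^ (q.1 + 1) * n) ∧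
      8 * 2 ^ q.1 * ((q.2 : ℝ) / S l q.2) * S l (2 * q.2 * 2 ^ (q.1 + 1) * n) ≤
        ((2 * q.2 * 2 ^ (q.1 + 1) * n : ℕ) : ℝ)) := by
    rintro ⟨p, M⟩
    by_cases hM : 1 ≤ M
    · simp only
      have hK : 1 ≤ 2 * M * 2 ^ (p + 1) := by
        have : 1 ≤ 2 ^ (p + 1) := Nat.one_le_two_pow
        nlinarith
      obtain ⟨n₁, hn₁⟩ := (Filter.tendsto_atTop_atTop.1 hl.2.2) (2 ^ (p + 1) * (M : ℝ))
      have hSM : 0 < S l M := S_pos hl hM
      have hMr : (0:ℝ) < M := by exact_mod_cast hM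
      have hR : 0 < 8 * 2 ^ p * ((M : ℝ) / S l M) := by positivity
      have hev := hces.eventually (gt_mem_nhds (show (0:ℝ) < 1 / (8 * 2 ^ p * ((M : ℝ) / S l M)) by
        positivity))
      obtain ⟨n₂, hn₂⟩ := Filter.eventually_atTop.1 hev
      obtain ⟨n, hn, hlt'⟩ := hbad (2 * M * 2 ^ (p + 1)) hK (max (max n₁ n₂) 1)
      have hn1 : n₁ ≤ n := le_trans (le_trans (le_max_left _ _) (le_max_left _ _)) hn
      have hn2 : n₂ ≤ n := le_trans (le_trans (le_max_right _ _) (le_max_left _ _)) hn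
      have hn3 : 1 ≤ n := le_trans (le_max_right _ _) hn
      have hKn : n ≤ 2 * M * 2 ^ (p + 1) * n := Nat.le_mul_of_pos_left _ hK
      refine ⟨n, hn3, fun _ => ⟨hlt'.le, ?_, ?_⟩⟩
      · exact hn₁ _ (le_trans hn1 hKn)
      · have h1 := hn₂ _ (le_trans hn2 hKn)
        have h2 : (0:ℝ) < ((2 * M * 2 ^ (p + 1) * n : ℕ) : ℝ) := by
          have : 0 < 2 * M * 2 ^ (p + 1) * n := by omega
          exact_mod_cast this
        change (((2 * M * 2 ^ (p + 1) * n : ℕ) : ℝ))⁻¹ * S l (2 * M * 2 ^ (p + 1) * n) < _ at h1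
        rw [inv_mul_lt_iff₀ h2, mul_one_div, lt_div_iff₀ hR] at h1
        linarith
    · exact ⟨1, le_rfl, fun h => absurd h hM⟩
  choose φ hφ1 hφ using hcond
  let N : ℕ → ℕ := fun p => Nat.rec 1 (fun p M => 2 * M * 2 ^ (p + 1) * φ (p, M)) p
  have hN0 : N 0 = 1 := rfl
  have hNs : ∀ p, N (p + 1) = 2 * N p * 2 ^ (p + 1) * φ (p, N p) := fun p => rfl
  have hN1 : ∀ p, 1 ≤ N p := by
    intro p
    induction p with
    | zero => exact le_rfl
    | succ p ih =>
      rw [hNs]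
      have h1 : 1 ≤ 2 ^ (p + 1) := Nat.one_le_two_pow
      have h2 := hφ1 (p, N p)
      have h3 : 1 ≤ 2 * N p := by omega
      exact Nat.mul_pos (Nat.mul_pos h3 h1) h2
  refine ⟨N, fun p => φ (p, N p), hN0, hNs, fun p => hφ1 _, ?_, ?_, ?_⟩
  · intro p
    rw [hNs]
    exact (hφ (p, N p) (hN1 p)).1
  · intro p
    rw [hNs]
    exact (hφ (p, N p) (hN1 p)).2.1
  · intro p
    rw [hNs]
    exact (hφ (p, N p) (hN1 p)).2.2

namespace Data

variable {g l : ℕ → ℝ} {ε : ℝ} {N k : ℕ → ℕ}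

theorem N1 (D : Data g l ε N k) (p : ℕ) : 1 ≤ N p := by
  induction p with
  | zero => rw [D.N0]
  | succ p ih =>
    rw [D.Ns]
    have h1 : 1 ≤ 2 ^ (p + 1) := Nat.one_le_two_pow
    have h2 := D.k1 p
    have h3 : 1 ≤ 2 * N p := by omega
    exact Nat.mul_pos (Nat.mul_pos h3 h1) h2

theorem Nmono (D : Data g l ε N k) : Monotone N := by
  apply monotone_nat_of_le_succ
  intro p
  rw [D.Ns]
  have h1 : 1 ≤ 2 ^ (p + 1) := Nat.one_le_two_pow
  have h2 := D.k1 p
  calc N p ≤ N p * 2 * (2 ^ (p + 1) * k p) := by nlinarith [Nat.mul_pos h1 h2, D.N1 p]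
    _ = 2 * N p * 2 ^ (p + 1) * k p := by ring

theorem Npos (D : Data g l ε N k) (p : ℕ) : (0:ℝ) < N p := by
  exact_mod_cast D.N1 p

theorem Spos (D : Data g l ε N k) (hl : LambdaSeq l) (p : ℕ) : 0 < S l (N p) :=
  S_pos hl (D.N1 p)

theorem two_pow_le (D : Data g l ε N k) (p : ℕ) : (2:ℝ) ^ (p + 1) ≤ S l (N (p + 1)) := by
  have h1 := D.hb p
  have h2 : (1:ℝ) ≤ N p := by exact_mod_cast D.N1 p
  have h3 : (0:ℝ) < 2 ^ (p + 1) := by positivity
  nlinarith

theorem h_le (D : Data g l ε N k) (p : ℕ) : 1 / S l (N (p + 1)) ≤ (1 / 2) ^ (p + 1) := by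
  have h1 := D.two_pow_le p
  rw [one_div_pow]
  exact one_div_le_one_div_of_le (by positivity) h1

end Data

/-- Summand of the counterexample. -/
noncomputable def term (a b : ℝ) (l : ℕ → ℝ) (N : ℕ → ℕ) (p : ℕ) (x : ℝ) : ℝ :=
  1 / S l (N (p + 1)) * Real.cos (Real.pi * N (p + 1) * ((x - a) / (b - a)))

/-- The counterexample. -/
noncomputable def fn (a b : ℝ) (l : ℕ → ℝ) (N : ℕ → ℕ) (x : ℝ) : ℝ := ∑' p, term a b l N p x

theorem tendsto_fn {a b : ℝ} {g l : ℕ → ℝ} {ε : ℝ} {N k : ℕ → ℕ} (hl : LambdaSeq l)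
    (D : Data g l ε N k) (x : ℝ) :
    Tendsto (fun M => ∑ p ∈ range M, term a b l N p x) atTop (𝓝 (fn a b l N x)) := by
  have hs : Summable (fun p => term a b l N p x) := by
    apply Summable.of_norm_bounded (g := fun p => (1 / 2 : ℝ) ^ (p + 1))
    · exact (summable_nat_add_iff 1).2 summable_geometric_two
    · intro p
      rw [term, norm_mul, Real.norm_eq_abs, Real.norm_eq_abs]
      have h1 := Real.abs_cos_le_one (Real.pi * N (p + 1) * ((x - a) / (b - a)))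
      have h2 := D.h_le p
      have h3 : 0 < 1 / S l (N (p + 1)) := one_div_pos.2 (D.Spos hl _)
      rw [abs_of_pos h3]
      calc _ ≤ 1 / S l (N (p + 1)) * 1 := mul_le_mul_of_nonneg_left h1 h3.le
        _ ≤ _ := by linarith
  exact hs.hasSum.tendsto_sum_nat

theorem abs_cos_sub_cos_le' (x y : ℝ) : |Real.cos x - Real.cos y| ≤ |x - y| := by
  have h := Real.cos_sub_cos x y
  rw [h]
  have h1 : |Real.sin ((x - y) / 2)| ≤ |(x - y) / 2| := Real.abs_sin_le_abs
  have h2 : |Real.sin ((x + y) / 2)| ≤ 1 := Real.abs_sin_le_one _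
  rw [abs_mul, abs_mul]
  have h3 : |(-2 : ℝ)| = 2 := by norm_num
  rw [h3]
  have h4 : |(x - y) / 2| = |x - y| / 2 := by
    rw [abs_div]; norm_num
  rw [h4] at h1
  have h5 : 2 * |Real.sin ((x + y) / 2)| * |Real.sin ((x - y) / 2)| ≤
      2 * 1 * (|x - y| / 2) := by
    apply mul_le_mul _ h1 (abs_nonneg _) (by norm_num)
    linarith
  linarith

end Pool.Agent.V1185.GB
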