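import Pool.Agent.V1185.GB.Nec

open Finset Filter Topology
open scoped ENNReal

namespace Pool.Agent.V1185.GB

theorem point_bound {c e n0 n1 n2 : ℝ} (he : 0 ≤ e) (h1 : 0 ≤ n1) (h2 : 0 < n2)
    (hc2 : c ≤ 2) (hcl : c ≤ Real.pi * (n1 * e)) :
    c ≤ 2 * (if 1 ≤ n0 * e then 1 else 0) +
      Real.pi * (if n0 * e < 1 ∧ 1 ≤ n2 * e then min 1 (n1 * e) else 0) +
      Real.pi * (n1 / n2) * (if n2 * e < 1 then n2 * e else 0) := by
  have hpi := Real.pi_pos
  have hpi2 := Real.two_le_pi
  have hmin : 0 ≤ min 1 (n1 * e) := le_min zero_le_one (by positivity)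
  have t2 : 0 ≤ Real.pi * (if n0 * e < 1 ∧ 1 ≤ n2 * e then min 1 (n1 * e) else 0) := by
    split_ifs
    · positivity
    · simp
  have t3 : 0 ≤ Real.pi * (n1 / n2) * (if n2 * e < 1 then n2 * e else 0) := by
    split_ifs
    · positivity
    · simp
  have t1 : (0:ℝ) ≤ 2 * (if 1 ≤ n0 * e then 1 else 0) := by
    split_ifs <;> norm_num
  by_cases h0 : 1 ≤ n0 * e
  · rw [if_pos h0] at t1 ⊢
    linarith
  · push Not at h0
    by_cases h3 : n2 * e < 1
    · rw [if_pos h3] at t3 ⊢
      have : Real.pi * (n1 / n2) * (n2 * e) = Real.pi * (n1 * e) := by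
        field_simp
      rw [this]
      linarith
    · push Not at h3
      have hmid : n0 * e < 1 ∧ 1 ≤ n2 * e := ⟨h0, h3⟩
      rw [if_pos hmid] at t2 ⊢
      have : c ≤ Real.pi * min 1 (n1 * e) := by
        rcases min_choice 1 (n1 * e) with h | h
        · rw [h]; linarith
        · rw [h]; exact hcl
      linarith

/-- Bound at one scale. -/
theorem scale_bound {g l : ℕ → ℝ} {ε : ℝ} {N k : ℕ → ℕ} (hg : LambdaSeq g) (hl : LambdaSeq l)
    (hε : 0 < ε) (D : Data g l ε N k) (p n : ℕ) {e c : ℕ → ℝ} (he : ∀ i < n, 0 ≤ e i)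
    (hsum : ∑ i ∈ range n, e i ≤ 1) (hc2 : ∀ i < n, c i ≤ 2)
    (hcl : ∀ i < n, c i ≤ Real.pi * (N (p + 1) * e i)) :
    ∑ i ∈ range n, (1 / S l (N (p + 1)) * c i) / g i ≤
      (2 / g 0 + 2 * Real.pi / ε) * (1 / 2) ^ (p + 1) +
      Real.pi / ε * ∑ i ∈ range n, (if N p * e i < 1 ∧ 1 ≤ N (p + 2) * e i then e i else 0) := by
  have hpi := Real.pi_pos
  have hg0 : 0 < g 0 := hg.1 0
  have hNp := D.Npos p
  have hNp1 := D.Npos (p + 1)
  have hNp2 := D.Npos (p + 2)
  have hS1 := D.Spos hl (p + 1)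
  have hS2 := D.Spos hl (p + 2)
  have hSp := D.Spos hl p
  set θ := ∑ i ∈ range n, (if N p * e i < 1 ∧ 1 ≤ N (p + 2) * e i then e i else 0) with hθ
  have hθ0 : 0 ≤ θ := by
    apply Finset.sum_nonneg
    intro i hi
    rw [Finset.mem_range] at hi
    split_ifs
    · exact he i hi
    · exact le_rfl
  -- the three classes
  let A : ℕ → ℝ := fun i => if 1 ≤ N p * e i then 1 else 0
  let Md : ℕ → ℝ := fun i =>
    if N p * e i < 1 ∧ 1 ≤ N (p + 2) * e i then min 1 (N (p + 1) * e i) else 0
  let Sh : ℕ → ℝ := fun i => if N (p + 2) * e i < 1 then N (p + 2) * e i else 0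
  have hpt : ∑ i ∈ range n, c i / g i ≤
      2 * ∑ i ∈ range n, A i / g i + Real.pi * ∑ i ∈ range n, Md i / g i +
      Real.pi * (N (p + 1) / N (p + 2)) * ∑ i ∈ range n, Sh i / g i := by
    rw [Finset.mul_sum, Finset.mul_sum, Finset.mul_sum, ← Finset.sum_add_distrib,
      ← Finset.sum_add_distrib]
    apply Finset.sum_le_sum
    intro i hi
    rw [Finset.mem_range] at hi
    have h1 := point_bound (n0 := N p) (he i hi) hNp1.le hNp2 (hc2 i hi) (hcl i hi)
    have h2 := div_le_div_of_nonneg_right h1 (hg.1 i).le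
    refine le_trans h2 (le_of_eq ?_)
    simp only [A, Md, Sh]
    ring
  have hA : ∑ i ∈ range n, A i / g i ≤ N p / g 0 := by
    calc ∑ i ∈ range n, A i / g i ≤ ∑ i ∈ range n, N p * e i / g 0 := by
          apply Finset.sum_le_sum
          intro i hi
          rw [Finset.mem_range] at hi
          have h1 : 0 ≤ N p * e i := mul_nonneg hNp.le (he i hi)
          have h2 : A i ≤ N p * e i := by
            simp only [A]; split_ifs with h
            · exact h
            · exact h1
          exact div_le_div₀ h1 h2 hg0 (hg.2.1 (Nat.zero_le _))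
      _ = N p / g 0 * ∑ i ∈ range n, e i := by
          rw [Finset.mul_sum]
          apply Finset.sum_congr rfl
          intro i _; ring
      _ ≤ N p / g 0 * 1 := mul_le_mul_of_nonneg_left hsum (by positivity)
      _ = _ := by ring
  have hMd : ∑ i ∈ range n, Md i / g i ≤
      S g (k p) * (1 + ((2 * N p * 2 ^ (p + 1) : ℕ) : ℝ) * θ) := by
    have h1 := bath hg (x := Md) (n := n) (D.k1 p) (by
      intro i hi
      simp only [Md]; split_ifs
      · exact le_min zero_le_one (mul_nonneg hNp1.le (he i hi))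
      · exact le_rfl) (by
      intro i hi
      simp only [Md]; split_ifs
      · exact min_le_left _ _
      · exact zero_le_one)
    refine le_trans h1 ?_
    apply mul_le_mul_of_nonneg_left _ (S_nonneg hg _)
    have hk : (0:ℝ) < k p := by exact_mod_cast D.k1 p
    have h2 : ∑ i ∈ range n, Md i ≤ N (p + 1) * θ := by
      rw [hθ, Finset.mul_sum]
      apply Finset.sum_le_sum
      intro i hi
      simp only [Md]; split_ifs
      · exact min_le_right _ _
      · simp
    have h3 : (N (p + 1) : ℝ) = ((2 * N p * 2 ^ (p + 1) : ℕ) : ℝ) * k p := by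
      rw [D.Ns]; push_cast; ring
    have h4 : (∑ i ∈ range n, Md i) / k p ≤ ((2 * N p * 2 ^ (p + 1) : ℕ) : ℝ) * θ := by
      rw [div_le_iff₀ hk]
      calc _ ≤ _ := h2
        _ = _ := by rw [h3]; ring
    linarith
  have hSh : ∑ i ∈ range n, Sh i / g i ≤ 2 / ε * S l (N (p + 2)) := by
    have h1 := bath hg (x := Sh) (n := n) (D.k1 (p + 1)) (by
      intro i hi
      simp only [Sh]; split_ifs
      · exact mul_nonneg hNp2.le (he i hi)
      · exact le_rfl) (by
      intro i hi
      simp only [Sh]; split_ifs with h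
      · exact h.le
      · exact zero_le_one)
    refine le_trans h1 ?_
    have hk : (0:ℝ) < k (p + 1) := by exact_mod_cast D.k1 (p + 1)
    have h2 : ∑ i ∈ range n, Sh i ≤ N (p + 2) := by
      calc ∑ i ∈ range n, Sh i ≤ ∑ i ∈ range n, N (p + 2) * e i := by
            apply Finset.sum_le_sum
            intro i hi
            rw [Finset.mem_range] at hi
            simp only [Sh]; split_ifs
            · exact le_rfl
            · exact mul_nonneg hNp2.le (he i hi)
        _ = N (p + 2) * ∑ i ∈ range n, e i := by rw [Finset.mul_sum]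
        _ ≤ N (p + 2) * 1 := mul_le_mul_of_nonneg_left hsum hNp2.le
        _ = _ := by ring
    have h3 : (N (p + 2) : ℝ) = ((2 * N (p + 1) * 2 ^ (p + 1 + 1) : ℕ) : ℝ) * k (p + 1) := by
      rw [show p + 2 = (p + 1) + 1 from rfl, D.Ns (p + 1)]; push_cast; ring
    have h4 : (∑ i ∈ range n, Sh i) / k (p + 1) ≤
        ((2 * N (p + 1) * 2 ^ (p + 1 + 1) : ℕ) : ℝ) := by
      rw [div_le_iff₀ hk, ← h3]
      exact h2
    have h5 : (1:ℝ) ≤ ((2 * N (p + 1) * 2 ^ (p + 1 + 1) : ℕ) : ℝ) := by
      have : 1 ≤ 2 * N (p + 1) * 2 ^ (p + 1 + 1) := by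
        have h6 := D.N1 (p + 1)
        exact Nat.mul_pos (by omega) (by positivity)
      exact_mod_cast this
    have h6 := D.ha (p + 1)
    have h7 : S g (k (p + 1)) * (1 + (∑ i ∈ range n, Sh i) / k (p + 1)) ≤
        S g (k (p + 1)) * (2 * ((2 * N (p + 1) * 2 ^ (p + 1 + 1) : ℕ) : ℝ)) :=
      mul_le_mul_of_nonneg_left (by linarith) (S_nonneg hg _)
    refine le_trans h7 ?_
    rw [div_mul_eq_mul_div, le_div_iff₀ hε]
    have h8 : S l (N (p + 1 + 1)) = S l (N (p + 2)) := rfl
    rw [h8] at h6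
    linarith
  -- combine
  have hlhs : ∑ i ∈ range n, (1 / S l (N (p + 1)) * c i) / g i =
      1 / S l (N (p + 1)) * ∑ i ∈ range n, c i / g i := by
    rw [Finset.mul_sum]
    apply Finset.sum_congr rfl
    intro i _; ring
  rw [hlhs]
  have hinv : 0 < 1 / S l (N (p + 1)) := one_div_pos.2 hS1
  have hB : ∑ i ∈ range n, c i / g i ≤ 2 * (N p / g 0) +
      Real.pi * (S g (k p) * (1 + ((2 * N p * 2 ^ (p + 1) : ℕ) : ℝ) * θ)) +
      Real.pi * (N (p + 1) / N (p + 2)) * (2 / ε * S l (N (p + 2))) := by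
    refine le_trans hpt ?_
    have h1 : Real.pi * ∑ i ∈ range n, Md i / g i ≤
      Real.pi * (S g (k p) * (1 + ((2 * N p * 2 ^ (p + 1) : ℕ) : ℝ) * θ)) :=
      mul_le_mul_of_nonneg_left hMd hpi.le
    have h2 : Real.pi * (N (p + 1) / N (p + 2)) * ∑ i ∈ range n, Sh i / g i ≤
      Real.pi * (N (p + 1) / N (p + 2)) * (2 / ε * S l (N (p + 2))) :=
      mul_le_mul_of_nonneg_left hSh (by positivity)
    linarith
  refine le_trans (mul_le_mul_of_nonneg_left hB hinv.le) ?_
  -- three terms
  have hpow : (0:ℝ) < (1 / 2) ^ (p + 1) := by positivity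
  have T1 : 1 / S l (N (p + 1)) * (2 * (N p / g 0)) ≤ 2 / g 0 * (1 / 2) ^ (p + 1) := by
    have h1 := D.hb p
    have h2 : (N p : ℝ) / S l (N (p + 1)) ≤ (1 / 2) ^ (p + 1) := by
      rw [div_le_iff₀ hS1, one_div_pow, one_div, inv_mul_eq_div, le_div_iff₀ (by positivity)]
      linarith
    calc 1 / S l (N (p + 1)) * (2 * (N p / g 0)) = 2 / g 0 * (N p / S l (N (p + 1))) := by
          field_simp
      _ ≤ _ := mul_le_mul_of_nonneg_left h2 (by positivity)
  have T2 : 1 / S l (N (p + 1)) *
      (Real.pi * (S g (k p) * (1 + ((2 * N p * 2 ^ (p + 1) : ℕ) : ℝ) * θ))) ≤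
      Real.pi / ε * (1 / 2) ^ (p + 1) + Real.pi / ε * θ := by
    have h1 := D.ha p
    set Kp : ℝ := ((2 * N p * 2 ^ (p + 1) : ℕ) : ℝ) with hKp
    have hKp0 : (2:ℝ) ^ (p + 1) ≤ Kp := by
      rw [hKp]; push_cast
      have h2 : (1:ℝ) ≤ N p := by exact_mod_cast D.N1 p
      have h3 : (0:ℝ) < 2 ^ (p + 1) := by positivity
      nlinarith
    have hKpos : 0 < Kp := lt_of_lt_of_le (by positivity) hKp0
    have h2 : S g (k p) / S l (N (p + 1)) ≤ 1 / (ε * Kp) := by
      rw [div_le_div_iff₀ hS1 (by positivity)]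
      linarith
    have h3 : 1 / Kp ≤ (1 / 2) ^ (p + 1) := by
      rw [one_div_pow]
      exact one_div_le_one_div_of_le (by positivity) hKp0
    calc 1 / S l (N (p + 1)) * (Real.pi * (S g (k p) * (1 + Kp * θ))) =
        (S g (k p) / S l (N (p + 1))) * (Real.pi * (1 + Kp * θ)) := by
          field_simp
      _ ≤ 1 / (ε * Kp) * (Real.pi * (1 + Kp * θ)) :=
          mul_le_mul_of_nonneg_right h2 (by positivity)
      _ = Real.pi / ε * (1 / Kp) + Real.pi / ε * θ := by
          field_simp
      _ ≤ _ := by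
          have : Real.pi / ε * (1 / Kp) ≤ Real.pi / ε * (1 / 2) ^ (p + 1) :=
            mul_le_mul_of_nonneg_left h3 (by positivity)
          linarith
  have T3 : 1 / S l (N (p + 1)) *
      (Real.pi * (N (p + 1) / N (p + 2)) * (2 / ε * S l (N (p + 2)))) ≤
      Real.pi / ε * (1 / 2) ^ (p + 1) := by
    have h1 := D.hc (p + 1)
    have h8 : S l (N (p + 1 + 1)) = S l (N (p + 2)) := rfl
    have h9 : (N (p + 1 + 1) : ℝ) = N (p + 2) := rfl
    rw [h8, h9] at h1
    have h2 : (N (p + 1) / S l (N (p + 1))) * S l (N (p + 2)) / N (p + 2) ≤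
        1 / 8 * (1 / 2) ^ (p + 1) := by
      rw [div_le_iff₀ hNp2, one_div_pow]
      have h3 : (0:ℝ) < 2 ^ (p + 1) := by positivity
      have h4 : (N (p + 1) / S l (N (p + 1))) * S l (N (p + 2)) =
        1 / 8 * (1 / 2 ^ (p + 1)) *
          (8 * 2 ^ (p + 1) * (N (p + 1) / S l (N (p + 1))) * S l (N (p + 2))) := by
        field_simp
      rw [h4]
      exact mul_le_mul_of_nonneg_left h1 (by positivity)
    calc 1 / S l (N (p + 1)) *
        (Real.pi * (N (p + 1) / N (p + 2)) * (2 / ε * S l (N (p + 2)))) =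
        2 * (Real.pi / ε) * ((N (p + 1) / S l (N (p + 1))) * S l (N (p + 2)) / N (p + 2)) := by
          field_simp
      _ ≤ 2 * (Real.pi / ε) * (1 / 8 * (1 / 2) ^ (p + 1)) :=
          mul_le_mul_of_nonneg_left h2 (by positivity)
      _ ≤ Real.pi / ε * (1 / 2) ^ (p + 1) := by
          have : 0 < Real.pi / ε * (1 / 2) ^ (p + 1) := by positivity
          linarith
  have hfin : 1 / S l (N (p + 1)) * (2 * (N p / g 0) +
      Real.pi * (S g (k p) * (1 + ((2 * N p * 2 ^ (p + 1) : ℕ) : ℝ) * θ)) +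
      Real.pi * (N (p + 1) / N (p + 2)) * (2 / ε * S l (N (p + 2)))) =
      1 / S l (N (p + 1)) * (2 * (N p / g 0)) +
      1 / S l (N (p + 1)) *
        (Real.pi * (S g (k p) * (1 + ((2 * N p * 2 ^ (p + 1) : ℕ) : ℝ) * θ))) +
      1 / S l (N (p + 1)) *
        (Real.pi * (N (p + 1) / N (p + 2)) * (2 / ε * S l (N (p + 2)))) := by ring
  rw [hfin]
  have hsplit : (2 / g 0 + 2 * Real.pi / ε) * (1 / 2) ^ (p + 1) + Real.pi / ε * θ =
      2 / g 0 * (1 / 2) ^ (p + 1) + (Real.pi / ε * (1 / 2) ^ (p + 1) + Real.pi / ε * θ) +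
      Real.pi / ε * (1 / 2) ^ (p + 1) := by ring
  rw [hsplit]
  linarith

/-- The telescoping bound for the number of scales at which an interval is intermediate. -/
theorem mid_count {N : ℕ → ℕ} (hN : Monotone N) {e : ℝ} (he : 0 ≤ e) (M : ℕ) :
    ∑ p ∈ range M, (if N p * e < 1 ∧ 1 ≤ N (p + 2) * e then e else 0) ≤ 2 * e := by
  let χ : ℕ → ℝ := fun p => if N p * e < 1 then e else 0
  have hχ0 : ∀ p, 0 ≤ χ p := by
    intro p; simp only [χ]; split_ifs
    · exact he
    · exact le_rfl
  have hχe : ∀ p, χ p ≤ e := by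
    intro p; simp only [χ]; split_ifs
    · exact le_rfl
    · exact he
  have h1 : ∀ p, (if N p * e < 1 ∧ 1 ≤ N (p + 2) * e then e else 0) = χ p - χ (p + 2) := by
    intro p
    have hle : (N p : ℝ) * e ≤ N (p + 2) * e := by
      apply mul_le_mul_of_nonneg_right _ he
      exact_mod_cast hN (by omega)
    simp only [χ]
    by_cases h2 : (N (p + 2) : ℝ) * e < 1
    · have h3 : (N p : ℝ) * e < 1 := lt_of_le_of_lt hle h2
      rw [if_pos h2, if_pos h3, if_neg (by rintro ⟨_, h⟩; linarith)]
      ring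
    · rw [if_neg h2]
      push Not at h2
      by_cases h3 : (N p : ℝ) * e < 1
      · rw [if_pos h3, if_pos ⟨h3, h2⟩]; ring
      · rw [if_neg h3, if_neg (by rintro ⟨h, _⟩; exact h3 h)]; ring
  have h2 : ∀ M, ∑ p ∈ range M, (χ p - χ (p + 2)) = χ 0 + χ 1 - χ M - χ (M + 1) := by
    intro M
    induction M with
    | zero => simp
    | succ M ih => rw [Finset.sum_range_succ, ih]; ring
  rw [Finset.sum_congr rfl (fun p _ => h1 p), h2]
  have := hχ0 M
  have := hχ0 (M + 1)
  have := hχe 0
  have := hχe 1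
  linarith

/-- The counterexample lies in `ΓBV`. -/
theorem fn_bv {a b : ℝ} (hab : a < b) {g l : ℕ → ℝ} {ε : ℝ} {N k : ℕ → ℕ} (hg : LambdaSeq g)
    (hl : LambdaSeq l) (hε : 0 < ε) (D : Data g l ε N k) : BV a b g (fn a b l N) := by
  have hpi := Real.pi_pos
  have hg0 : 0 < g 0 := hg.1 0
  have hba : 0 < b - a := by linarith
  rw [bv_iff]
  refine ⟨(2 / g 0 + 2 * Real.pi / ε) + 2 * (Real.pi / ε), by positivity, ?_⟩
  intro n s t hF
  let e : ℕ → ℝ := fun i => (t i - s i) / (b - a)
  have he : ∀ i < n, 0 ≤ e i := by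
    intro i hi
    exact div_nonneg (by linarith [(hF.1 i hi).2.1]) hba.le
  have hsum : ∑ i ∈ range n, e i ≤ 1 := by
    simp only [e]
    rw [← Finset.sum_div, div_le_one hba]
    exact sum_len hab.le hF
  have hM : ∀ M, ∑ i ∈ range n, |∑ p ∈ range M, term a b l N p (t i) -
      ∑ p ∈ range M, term a b l N p (s i)| / g i ≤
      (2 / g 0 + 2 * Real.pi / ε) + 2 * (Real.pi / ε) := by
    intro M
    let c : ℕ → ℕ → ℝ := fun p i =>
      |Real.cos (Real.pi * N (p + 1) * ((t i - a) / (b - a))) -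
        Real.cos (Real.pi * N (p + 1) * ((s i - a) / (b - a)))|
    have hc2 : ∀ p i, c p i ≤ 2 := by
      intro p i
      simp only [c]
      rw [abs_le]
      have h1 := Real.cos_le_one (Real.pi * N (p + 1) * ((t i - a) / (b - a)))
      have h2 := Real.neg_one_le_cos (Real.pi * N (p + 1) * ((t i - a) / (b - a)))
      have h3 := Real.cos_le_one (Real.pi * N (p + 1) * ((s i - a) / (b - a)))
      have h4 := Real.neg_one_le_cos (Real.pi * N (p + 1) * ((s i - a) / (b - a)))
      constructor <;> linarith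
    have hcl : ∀ p, ∀ i < n, c p i ≤ Real.pi * (N (p + 1) * e i) := by
      intro p i hi
      simp only [c]
      refine le_trans (abs_cos_sub_cos_le' _ _) (le_of_eq ?_)
      have h1 : Real.pi * N (p + 1) * ((t i - a) / (b - a)) -
          Real.pi * N (p + 1) * ((s i - a) / (b - a)) = Real.pi * (N (p + 1) * e i) := by
        simp only [e]; ring
      rw [h1, abs_of_nonneg]
      exact mul_nonneg hpi.le (mul_nonneg (D.Npos _).le (he i hi))
    calc ∑ i ∈ range n, |∑ p ∈ range M, term a b l N p (t i) -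
          ∑ p ∈ range M, term a b l N p (s i)| / g i ≤
        ∑ i ∈ range n, ∑ p ∈ range M, (1 / S l (N (p + 1)) * c p i) / g i := by
          apply Finset.sum_le_sum
          intro i _
          rw [← Finset.sum_div]
          apply div_le_div_of_nonneg_right _ (hg.1 i).le
          rw [← Finset.sum_sub_distrib]
          refine le_trans (Finset.abs_sum_le_sum_abs _ _) (le_of_eq ?_)
          apply Finset.sum_congr rfl
          intro p _
          simp only [term, c]
          rw [← mul_sub, abs_mul, abs_of_pos (one_div_pos.2 (D.Spos hl (p + 1)))]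
      _ = ∑ p ∈ range M, ∑ i ∈ range n, (1 / S l (N (p + 1)) * c p i) / g i :=
          Finset.sum_comm
      _ ≤ ∑ p ∈ range M, ((2 / g 0 + 2 * Real.pi / ε) * (1 / 2) ^ (p + 1) +
          Real.pi / ε * ∑ i ∈ range n,
            (if N p * e i < 1 ∧ 1 ≤ N (p + 2) * e i then e i else 0)) := by
          apply Finset.sum_le_sum
          intro p _
          exact scale_bound hg hl hε D p n he hsum (fun i _ => hc2 p i) (hcl p)
      _ = (2 / g 0 + 2 * Real.pi / ε) * ∑ p ∈ range M, (1 / 2 : ℝ) ^ (p + 1) +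
          Real.pi / ε * ∑ i ∈ range n, ∑ p ∈ range M,
            (if N p * e i < 1 ∧ 1 ≤ N (p + 2) * e i then e i else 0) := by
          rw [Finset.sum_add_distrib, ← Finset.mul_sum, ← Finset.mul_sum, Finset.sum_comm]
      _ ≤ (2 / g 0 + 2 * Real.pi / ε) * 1 + Real.pi / ε * 2 := by
          apply add_le_add
          · apply mul_le_mul_of_nonneg_left _ (by positivity)
            have h1 : ∀ M : ℕ, ∑ p ∈ range M, (1 / 2 : ℝ) ^ (p + 1) = 1 - (1 / 2) ^ M := by
              intro M
              induction M with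
              | zero => simp
              | succ M ih => rw [Finset.sum_range_succ, ih]; ring
            rw [h1]
            have : (0:ℝ) < (1 / 2) ^ M := by positivity
            linarith
          · apply mul_le_mul_of_nonneg_left _ (by positivity)
            calc ∑ i ∈ range n, ∑ p ∈ range M,
                (if N p * e i < 1 ∧ 1 ≤ N (p + 2) * e i then e i else 0) ≤
                ∑ i ∈ range n, 2 * e i := by
                  apply Finset.sum_le_sum
                  intro i hi
                  rw [Finset.mem_range] at hi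
                  exact mid_count D.Nmono (he i hi) M
              _ = 2 * ∑ i ∈ range n, e i := by rw [Finset.mul_sum]
              _ ≤ 2 := by linarith
      _ = _ := by ring
  have hlim : Tendsto (fun M => ∑ i ∈ range n, |∑ p ∈ range M, term a b l N p (t i) -
      ∑ p ∈ range M, term a b l N p (s i)| / g i) atTop
      (𝓝 (∑ i ∈ range n, |fn a b l N (t i) - fn a b l N (s i)| / g i)) := by
    apply tendsto_finsetSum
    intro i _
    exact (((tendsto_fn hl D (t i)).sub (tendsto_fn hl D (s i))).abs).div_const _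
  exact le_of_tendsto' hlim hM

end Pool.Agent.V1185.GB
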