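import Pool.Agent.V1185.GB.Nec2

open Finset Filter Topology
open scoped ENNReal

namespace Pool.Agent.V1185.GB

theorem Data.dvd {g l : ℕ → ℝ} {ε : ℝ} {N k : ℕ → ℕ} (D : Data g l ε N k) {p q : ℕ}
    (h : p < q) : ∃ m : ℕ, N q = N p * (2 * m) := by
  induction q with
  | zero => omega
  | succ q ih =>
    rcases Nat.lt_succ_iff_lt_or_eq.1 h with h' | h'
    · obtain ⟨m, hm⟩ := ih h'
      refine ⟨m * (2 * 2 ^ (q + 1) * k q), ?_⟩
      rw [D.Ns, hm]; ring
    · subst h'
      exact ⟨2 ^ (p + 1) * k p, by rw [D.Ns]; ring⟩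

theorem Data.geom {g l : ℕ → ℝ} {ε : ℝ} {N k : ℕ → ℕ} (hl : LambdaSeq l) (D : Data g l ε N k)
    (p : ℕ) : ∑ q ∈ range p, (N (q + 1) : ℝ) / S l (N (q + 1)) ≤
      1 / 7 * ((N (p + 1) : ℝ) / S l (N (p + 1))) := by
  induction p with
  | zero =>
    rw [Finset.sum_range_zero]
    have h1 := D.Npos 1
    have h2 := D.Spos hl 1
    positivity
  | succ p ih =>
    rw [Finset.sum_range_succ]
    have h1 := D.hc (p + 1)
    have h2 := D.Spos hl (p + 1 + 1)
    have h3 := D.Spos hl (p + 1)
    have h4 := D.Npos (p + 1)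
    have h5 : 8 * ((N (p + 1) : ℝ) / S l (N (p + 1))) ≤ N (p + 1 + 1) / S l (N (p + 1 + 1)) := by
      rw [le_div_iff₀ h2]
      refine le_trans ?_ h1
      apply mul_le_mul_of_nonneg_right _ h2.le
      apply mul_le_mul_of_nonneg_right _ (by positivity)
      have : (1:ℝ) ≤ 2 ^ (p + 1) := one_le_pow₀ (by norm_num)
      linarith
    linarith

/-- Node of the partition. -/
noncomputable def node (a b : ℝ) (N k : ℕ) : ℝ := a + (b - a) * (k / N)

theorem node_sub {a b : ℝ} (hab : a < b) (N k : ℕ) : (node a b N k - a) / (b - a) = k / N := by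
  unfold node
  have : b - a ≠ 0 := by linarith
  rw [add_sub_cancel_left, mul_div_cancel_left₀ _ this]

theorem fn_lower {a b : ℝ} (hab : a < b) {g l : ℕ → ℝ} {ε : ℝ} {N k : ℕ → ℕ}
    (hl : LambdaSeq l) (D : Data g l ε N k) (p i : ℕ) :
    1 / S l (N (p + 1)) ≤
      |fn a b l N (node a b (N (p + 1)) (i + 1)) - fn a b l N (node a b (N (p + 1)) i)| := by
  have hpi := Real.pi_pos
  have hpi4 := Real.pi_le_four
  have hNp := D.Npos (p + 1)
  have hS := D.Spos hl (p + 1)
  have hh : 0 < 1 / S l (N (p + 1)) := one_div_pos.2 hS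
  set x := node a b (N (p + 1)) i with hx
  set y := node a b (N (p + 1)) (i + 1) with hy
  have hxn : (x - a) / (b - a) = (i : ℝ) / N (p + 1) := node_sub hab _ _
  have hyn : (y - a) / (b - a) = ((i + 1 : ℕ) : ℝ) / N (p + 1) := node_sub hab _ _
  -- finer scales
  have hfine : ∀ q, p < q → term a b l N q y - term a b l N q x = 0 := by
    intro q hq
    obtain ⟨m, hm⟩ := D.dvd (show p + 1 < q + 1 by omega)
    simp only [term]
    rw [hxn, hyn, hm]
    have e1 : ∀ j : ℕ, Real.cos (Real.pi * ((N (p + 1) * (2 * m) : ℕ) : ℝ) * ((j : ℝ) / N (p + 1)))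
        = 1 := by
      intro j
      have : Real.pi * ((N (p + 1) * (2 * m) : ℕ) : ℝ) * ((j : ℝ) / N (p + 1)) =
          ((m * j : ℕ) : ℝ) * (2 * Real.pi) := by
        push_cast
        field_simp
      rw [this]
      exact Real.cos_nat_mul_two_pi _
    rw [e1, e1]; ring
  have hsame : |term a b l N p y - term a b l N p x| = 2 * (1 / S l (N (p + 1))) := by
    simp only [term]
    rw [hxn, hyn]
    have e1 : ∀ j : ℕ, Real.cos (Real.pi * (N (p + 1) : ℝ) * ((j : ℝ) / N (p + 1)))
        = (-1) ^ j := by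
      intro j
      have : Real.pi * (N (p + 1) : ℝ) * ((j : ℝ) / N (p + 1)) = (j : ℝ) * Real.pi := by
        field_simp
      rw [this]
      exact Real.cos_nat_mul_pi _
    rw [e1, e1, ← mul_sub, abs_mul, abs_of_pos hh, pow_succ]
    have e2 : |(-1 : ℝ) ^ i * -1 - (-1) ^ i| = 2 := by
      have : (-1 : ℝ) ^ i * -1 - (-1) ^ i = -2 * (-1) ^ i := by ring
      rw [this, abs_mul, abs_pow]
      norm_num
    rw [e2]; ring
  have hcoarse : |∑ q ∈ range p, (term a b l N q y - term a b l N q x)| ≤
      1 / S l (N (p + 1)) := by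
    calc |∑ q ∈ range p, (term a b l N q y - term a b l N q x)| ≤
        ∑ q ∈ range p, |term a b l N q y - term a b l N q x| := Finset.abs_sum_le_sum_abs _ _
      _ ≤ ∑ q ∈ range p, Real.pi / N (p + 1) * ((N (q + 1) : ℝ) / S l (N (q + 1))) := by
          apply Finset.sum_le_sum
          intro q _
          simp only [term]
          have hSq := D.Spos hl (q + 1)
          have hNq := D.Npos (q + 1)
          rw [← mul_sub, abs_mul, abs_of_pos (one_div_pos.2 hSq)]
          have h1 := abs_cos_sub_cos_le' (Real.pi * N (q + 1) * ((y - a) / (b - a)))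
            (Real.pi * N (q + 1) * ((x - a) / (b - a)))
          have h2 : |Real.pi * N (q + 1) * ((y - a) / (b - a)) -
              Real.pi * N (q + 1) * ((x - a) / (b - a))| = Real.pi * N (q + 1) / N (p + 1) := by
            rw [hxn, hyn]
            have : Real.pi * N (q + 1) * (((i + 1 : ℕ) : ℝ) / N (p + 1)) -
              Real.pi * N (q + 1) * ((i : ℝ) / N (p + 1)) = Real.pi * N (q + 1) / N (p + 1) := by
              push_cast; ring
            rw [this, abs_of_pos (by positivity)]
          rw [h2] at h1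
          calc _ ≤ 1 / S l (N (q + 1)) * (Real.pi * N (q + 1) / N (p + 1)) :=
                mul_le_mul_of_nonneg_left h1 (one_div_pos.2 hSq).le
            _ = _ := by ring
      _ = Real.pi / N (p + 1) * ∑ q ∈ range p, ((N (q + 1) : ℝ) / S l (N (q + 1))) := by
          rw [Finset.mul_sum]
      _ ≤ Real.pi / N (p + 1) * (1 / 7 * ((N (p + 1) : ℝ) / S l (N (p + 1)))) :=
          mul_le_mul_of_nonneg_left (D.geom hl p) (by positivity)
      _ = Real.pi / 7 * (1 / S l (N (p + 1))) := by field_simp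
      _ ≤ 1 * (1 / S l (N (p + 1))) := by
          apply mul_le_mul_of_nonneg_right _ hh.le
          linarith
      _ = _ := by ring
  have hstab : ∀ M, p + 1 ≤ M → ∑ q ∈ range M, (term a b l N q y - term a b l N q x) =
      ∑ q ∈ range (p + 1), (term a b l N q y - term a b l N q x) := by
    intro M hM
    induction M, hM using Nat.le_induction with
    | base => rfl
    | succ M hM ih =>
      rw [Finset.sum_range_succ, ih, hfine M (by omega), add_zero]
  have hmain : 1 / S l (N (p + 1)) ≤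
      |∑ q ∈ range (p + 1), (term a b l N q y - term a b l N q x)| := by
    rw [Finset.sum_range_succ]
    set A := ∑ q ∈ range p, (term a b l N q y - term a b l N q x)
    set B := term a b l N p y - term a b l N p x
    have h1 : |B| ≤ |A + B| + |A| := by
      have : B = (A + B) - A := by ring
      calc |B| = |(A + B) - A| := by rw [← this]
        _ ≤ _ := abs_sub _ _
    linarith
  have hlim : Tendsto (fun M => |∑ q ∈ range M, (term a b l N q y - term a b l N q x)|) atTop
      (𝓝 |fn a b l N y - fn a b l N x|) := by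
    have h1 := ((tendsto_fn (a := a) (b := b) hl D y).sub
      (tendsto_fn (a := a) (b := b) hl D x)).abs
    refine h1.congr ?_
    intro M
    rw [Finset.sum_sub_distrib]
  refine ge_of_tendsto hlim ?_
  rw [Filter.eventually_atTop]
  exact ⟨p + 1, fun M hM => by rw [hstab M hM]; exact hmain⟩

theorem node_family {a b : ℝ} (hab : a < b) {N : ℕ} (hN : 1 ≤ N) :
    Family a b N (fun i => node a b N i) (fun i => node a b N (i + 1)) := by
  have hNr : (0:ℝ) < N := by exact_mod_cast hN
  have hba : 0 ≤ b - a := by linarith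
  have hmono : ∀ i j : ℕ, i ≤ j → node a b N i ≤ node a b N j := by
    intro i j hij
    unfold node
    have h1 : (i : ℝ) / N ≤ j / N :=
      div_le_div_of_nonneg_right (by exact_mod_cast hij) hNr.le
    have := mul_le_mul_of_nonneg_left h1 hba
    linarith
  have h0 : node a b N 0 = a := by simp [node]
  have hNN : node a b N N = b := by
    unfold node
    rw [div_self hNr.ne']; ring
  constructor
  · intro i hi
    refine ⟨?_, hmono _ _ (by omega), ?_⟩
    · calc a = node a b N 0 := h0.symm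
        _ ≤ _ := hmono _ _ (Nat.zero_le _)
    · calc _ ≤ node a b N N := hmono _ _ (by omega)
        _ = b := hNN
  · intro i _ j _ hij
    rcases Nat.lt_or_gt_of_ne hij with h | h
    · left; exact hmono _ _ (by omega)
    · right; exact hmono _ _ (by omega)

theorem fn_not_bvc {a b : ℝ} (hab : a < b) {g l : ℕ → ℝ} {ε : ℝ} {N k : ℕ → ℕ}
    (hl : LambdaSeq l) (D : Data g l ε N k) : ¬ BVc a b l (fn a b l N) := by
  rintro ⟨_, ht⟩
  refine not_tendsto_of (c := 1 / 2) (by norm_num) ?_ ht
  intro m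
  obtain ⟨p, hp⟩ := pow_unbounded_of_one_lt (2 * S l m) (show (1:ℝ) < 2 by norm_num)
  have hS := D.Spos hl (p + 1)
  have h2 : 2 * S l m ≤ S l (N (p + 1)) := by
    have h3 := D.two_pow_le p
    have h4 : (2:ℝ) ^ p ≤ 2 ^ (p + 1) := pow_le_pow_right₀ (by norm_num) (by omega)
    linarith
  refine ⟨N (p + 1), _, _, node_family hab (D.N1 (p + 1)), ?_⟩
  have h3 : ∑ i ∈ range (N (p + 1)), 1 / S l (N (p + 1)) / l (i + m) ≤
      ∑ i ∈ range (N (p + 1)), |fn a b l N (node a b (N (p + 1)) (i + 1)) -
        fn a b l N (node a b (N (p + 1)) i)| / l (i + m) := by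
    apply Finset.sum_le_sum
    intro i _
    exact div_le_div_of_nonneg_right (fn_lower hab hl D p i) (hl.1 _).le
  refine le_trans ?_ h3
  have h4 : ∑ i ∈ range (N (p + 1)), 1 / S l (N (p + 1)) / l (i + m) =
      1 / S l (N (p + 1)) * ∑ i ∈ range (N (p + 1)), 1 / l (m + i) := by
    rw [Finset.mul_sum]
    apply Finset.sum_congr rfl
    intro i _
    rw [add_comm m i]; ring
  have h5 : S l (m + N (p + 1)) = S l m + ∑ i ∈ range (N (p + 1)), 1 / l (m + i) :=
    Finset.sum_range_add _ _ _
  have h6 : S l (N (p + 1)) ≤ S l (m + N (p + 1)) := S_mono hl (by omega)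
  rw [h4, one_div_mul_eq_div, le_div_iff₀ hS]
  linarith

theorem id_case {a b : ℝ} (hab : a < b) {g l : ℕ → ℝ} (hg : LambdaSeq g) (hl : LambdaSeq l)
    (hlt : ¬ Tendsto l atTop atTop) : BV a b g (fun x => x) ∧ ¬ BVc a b l (fun x => x) := by
  have hbdd : ∃ B, 0 < B ∧ ∀ i, l i ≤ B := by
    rw [Filter.tendsto_atTop_atTop] at hlt
    push Not at hlt
    obtain ⟨B, hB⟩ := hlt
    refine ⟨max B 1, by positivity, ?_⟩
    intro i
    obtain ⟨j, hj, hlj⟩ := hB i
    exact le_trans (hl.2.1 hj) (le_trans hlj.le (le_max_left _ _))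
  obtain ⟨B, hB, hlB⟩ := hbdd
  have hg0 : 0 < g 0 := hg.1 0
  have hba : 0 < b - a := by linarith
  constructor
  · rw [bv_iff]
    refine ⟨(b - a) / g 0, by positivity, ?_⟩
    intro n s t hF
    calc ∑ i ∈ range n, |t i - s i| / g i ≤ ∑ i ∈ range n, (t i - s i) / g 0 := by
          apply Finset.sum_le_sum
          intro i hi
          rw [Finset.mem_range] at hi
          have h1 : 0 ≤ t i - s i := by linarith [(hF.1 i hi).2.1]
          rw [abs_of_nonneg h1]
          exact div_le_div_of_nonneg_left h1 hg0 (hg.2.1 (Nat.zero_le _))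
      _ = (∑ i ∈ range n, (t i - s i)) / g 0 := by rw [Finset.sum_div]
      _ ≤ (b - a) / g 0 := div_le_div_of_nonneg_right (sum_len hab.le hF) hg0.le
  · rintro ⟨_, ht⟩
    refine not_tendsto_of (c := (b - a) / B) (by positivity) ?_ ht
    intro m
    refine ⟨1, fun _ => a, fun _ => b, ⟨fun i _ => ⟨le_rfl, hab.le, le_rfl⟩,
      fun i hi j hj hij => by omega⟩, ?_⟩
    rw [Finset.sum_range_one, abs_of_pos hba]
    exact div_le_div_of_nonneg_left hba.le (hl.1 _) (hlB _)

/-- Necessity of the criterion. -/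
theorem necessity {a b : ℝ} (hab : a < b) {g l : ℕ → ℝ} (hg : LambdaSeq g) (hl : LambdaSeq l)
    (h : ∀ f : ℝ → ℝ, BV a b g f → BVc a b l f) : Criterion g l := by
  by_contra hcr
  by_cases hlt : Tendsto l atTop atTop
  · obtain ⟨ε, hε, N, k, D⟩ := exists_data hl hlt hcr
    exact fn_not_bvc hab hl D (h _ (fn_bv hab hg hl hε D))
  · have h1 := id_case hab hg hl hlt
    exact h1.2 (h _ h1.1)

theorem main {a b : ℝ} (hab : a < b) {g l : ℕ → ℝ} (hg : LambdaSeq g) (hl : LambdaSeq l) :
    (∀ f : ℝ → ℝ, BV a b g f → BVc a b l f) ↔ Criterion g l :=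
  ⟨necessity hab hg hl, fun h _ hf => sufficiency hab.le hg hl h hf⟩

end Pool.Agent.V1185.GB
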