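import Pool.Agent.V1185.GB.Defs

open Finset Filter Topology
open scoped ENNReal

namespace Pool.Agent.V1185.GB

theorem sum_blocks (K n : ℕ) (F : ℕ → ℝ) :
    ∑ i ∈ range (K * n), F i = ∑ k ∈ range n, ∑ r ∈ range K, F (k * K + r) := by
  induction n with
  | zero => simp
  | succ n ih =>
    rw [Nat.mul_succ, Finset.sum_range_add, ih, Finset.sum_range_succ]
    simp [mul_comm]

theorem sum_ite_le (n M : ℕ) {c : ℝ} (hc : 0 ≤ c) :
    ∑ k ∈ range n, (if k ≤ M then c else 0) ≤ (M + 1) * c := by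
  rw [← Finset.sum_filter]
  calc ∑ k ∈ (range n).filter (fun k => k ≤ M), c ≤ ∑ k ∈ range (M + 1), c := by
        apply Finset.sum_le_sum_of_subset_of_nonneg
        · intro k hk
          rw [Finset.mem_filter] at hk
          rw [Finset.mem_range]; omega
        · intros; exact hc
    _ = (M + 1) * c := by simp

/-- The core comparison for a sorted sequence. -/
theorem core {g l a : ℕ → ℝ} (hg : LambdaSeq g) (hl : LambdaSeq l) {K : ℕ} (hK : 1 ≤ K)
    {N m s₀ M : ℕ} {η Ω : ℝ} (hη : 0 < η) (ha0 : ∀ i, 0 ≤ a i) (haΩ : ∀ i, a i ≤ Ω)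
    (ha : Antitone a) (haN : ∀ i, N ≤ i → a i = 0)
    (h1 : ∀ n, M + 2 ≤ n → ∑ i ∈ range (K * n), 1 / l i ≤ η * K * ∑ i ∈ range n, 1 / g i)
    (h2 : ∀ n, M + 2 ≤ n → 2 * ∑ i ∈ range s₀, 1 / g i + 1 / g 0 ≤
      ∑ i ∈ range (s₀ + (n - 1)), 1 / g i) :
    ∑ i ∈ range N, a i * (1 / l (i + m)) ≤
      2 * η * K * ∑ k ∈ range (N / K), a ((k + 1) * K - 1) / g (s₀ + k) +
        (M + 1) * K * Ω / l m := by
  have hΩ : 0 ≤ Ω := le_trans (ha0 0) (haΩ 0)
  have hKr : (0:ℝ) < K := by exact_mod_cast hK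
  have hlm : 0 < l m := hl.1 m
  set Q := N / K with hQ
  have hNQ : N ≤ K * (Q + 1) := by
    exact (Nat.lt_mul_div_succ N (show 0 < K by omega)).le
  -- step 1
  have e1 : ∑ i ∈ range N, a i * (1 / l (i + m)) ≤
      ∑ i ∈ range (K * (Q + 1)), a i * (1 / l (i + m)) := by
    apply Finset.sum_le_sum_of_subset_of_nonneg
    · exact Finset.range_subset_range.2 hNQ
    · intro i _ _
      exact mul_nonneg (ha0 i) (one_div_pos.2 (hl.1 _)).le
  have e2 : ∑ i ∈ range (K * (Q + 1)), a i * (1 / l (i + m)) ≤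
      ∑ k ∈ range (Q + 1), a (k * K) * ∑ r ∈ range K, 1 / l (k * K + r + m) := by
    rw [sum_blocks]
    apply Finset.sum_le_sum
    intro k _
    rw [Finset.mul_sum]
    apply Finset.sum_le_sum
    intro r _
    exact mul_le_mul_of_nonneg_right (ha (by omega)) (one_div_pos.2 (hl.1 _)).le
  -- majorise
  let y : ℕ → ℝ := fun k => (if k = 0 then 0 else 2 * η * K / g (s₀ + (k - 1))) +
    (if k ≤ M then K / l m else 0)
  have hy1 : ∀ n, ∑ k ∈ range n, (if k = 0 then (0:ℝ) else 2 * η * K / g (s₀ + (k - 1))) =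
      2 * η * K * ∑ k ∈ range (n - 1), 1 / g (s₀ + k) := by
    intro n
    cases n with
    | zero => simp
    | succ n =>
      rw [Finset.sum_range_succ']
      simp only [Nat.add_sub_cancel, if_true, add_zero, Nat.succ_ne_zero, if_false]
      rw [Finset.mul_sum]
      apply Finset.sum_congr rfl
      intro k _
      ring
  have hmaj : ∀ n ≤ Q + 1, ∑ k ∈ range n, ∑ r ∈ range K, 1 / l (k * K + r + m) ≤
      ∑ k ∈ range n, y k := by
    intro n _
    have hy2 : ∑ k ∈ range n, y k = 2 * η * K * ∑ k ∈ range (n - 1), 1 / g (s₀ + k) +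
        ∑ k ∈ range n, (if k ≤ M then (K:ℝ) / l m else 0) := by
      simp only [y]
      rw [Finset.sum_add_distrib, hy1]
    rw [hy2]
    by_cases hn : n ≤ M + 1
    · have h3 : ∑ k ∈ range n, (if k ≤ M then (K:ℝ) / l m else 0) =
          ∑ k ∈ range n, (K:ℝ) / l m := by
        apply Finset.sum_congr rfl
        intro k hk
        rw [Finset.mem_range] at hk
        rw [if_pos (by omega)]
      rw [h3]
      have h4 : ∑ k ∈ range n, ∑ r ∈ range K, 1 / l (k * K + r + m) ≤
          ∑ k ∈ range n, (K:ℝ) / l m := by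
        apply Finset.sum_le_sum
        intro k _
        calc ∑ r ∈ range K, 1 / l (k * K + r + m) ≤ ∑ r ∈ range K, 1 / l m := by
              apply Finset.sum_le_sum
              intro r _
              exact one_div_le_one_div_of_le hlm (hl.2.1 (by omega))
          _ = K / l m := by simp; ring
      have h5 : 0 ≤ 2 * η * K * ∑ k ∈ range (n - 1), 1 / g (s₀ + k) := by
        apply mul_nonneg (by positivity)
        exact Finset.sum_nonneg (fun i _ => (one_div_pos.2 (hg.1 _)).le)
      linarith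
    · have hn' : M + 2 ≤ n := by omega
      have h3 : 0 ≤ ∑ k ∈ range n, (if k ≤ M then (K:ℝ) / l m else 0) := by
        apply Finset.sum_nonneg
        intro k _
        split_ifs
        · positivity
        · exact le_rfl
      have h4 : ∑ k ∈ range n, ∑ r ∈ range K, 1 / l (k * K + r + m) ≤
          ∑ i ∈ range (K * n), 1 / l i := by
        rw [sum_blocks]
        apply Finset.sum_le_sum
        intro k _
        apply Finset.sum_le_sum
        intro r _
        exact one_div_le_one_div_of_le (hl.1 _) (hl.2.1 (by omega))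
      have h5 := h1 n hn'
      have h6 := h2 n hn'
      have h7 : ∑ i ∈ range (s₀ + (n - 1)), 1 / g i =
          ∑ i ∈ range s₀, 1 / g i + ∑ k ∈ range (n - 1), 1 / g (s₀ + k) :=
        Finset.sum_range_add _ _ _
      have h8 : ∑ i ∈ range n, 1 / g i ≤ 1 / g 0 + ∑ i ∈ range (s₀ + (n - 1)), 1 / g i := by
        obtain ⟨n', rfl⟩ : ∃ n', n = n' + 1 := ⟨n - 1, by omega⟩
        rw [Finset.sum_range_succ]
        have h9 : 1 / g n' ≤ 1 / g 0 := one_div_le_one_div_of_le (hg.1 _) (hg.2.1 (by omega))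
        have h10 : ∑ i ∈ range n', 1 / g i ≤ ∑ i ∈ range (s₀ + (n' + 1 - 1)), 1 / g i := by
          apply Finset.sum_le_sum_of_subset_of_nonneg
          · exact Finset.range_subset_range.2 (by omega)
          · intro i _ _; exact (one_div_pos.2 (hg.1 _)).le
        linarith
      have h11 : ∑ i ∈ range n, 1 / g i ≤ 2 * ∑ k ∈ range (n - 1), 1 / g (s₀ + k) := by
        linarith
      have h12 : η * K * ∑ i ∈ range n, 1 / g i ≤
          η * K * (2 * ∑ k ∈ range (n - 1), 1 / g (s₀ + k)) :=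
        mul_le_mul_of_nonneg_left h11 (by positivity)
      nlinarith
  have e3 := majorize (N := Q + 1) (a := fun k => a (k * K))
    (x := fun k => ∑ r ∈ range K, 1 / l (k * K + r + m)) (y := y) (fun i => ha0 _)
    (fun i j hij => ha (Nat.mul_le_mul_right _ hij)) hmaj
  have e4 : ∑ k ∈ range (Q + 1), a (k * K) * y k ≤
      2 * η * K * ∑ k ∈ range Q, a ((k + 1) * K - 1) / g (s₀ + k) +
        (M + 1) * K * Ω / l m := by
    have h3 : ∑ k ∈ range (Q + 1), a (k * K) * y k =
        ∑ k ∈ range (Q + 1), a (k * K) * (if k = 0 then 0 else 2 * η * K / g (s₀ + (k - 1))) +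
        ∑ k ∈ range (Q + 1), a (k * K) * (if k ≤ M then K / l m else 0) := by
      rw [← Finset.sum_add_distrib]
      apply Finset.sum_congr rfl
      intro k _
      simp only [y]
      ring
    rw [h3]
    apply add_le_add
    · rw [Finset.sum_range_succ']
      simp only [Nat.add_sub_cancel, if_true, mul_zero, add_zero, Nat.succ_ne_zero, if_false]
      rw [Finset.mul_sum]
      apply Finset.sum_le_sum
      intro k _
      have h4 : a ((k + 1) * K) ≤ a ((k + 1) * K - 1) := ha (by omega)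
      have h5 : 0 < g (s₀ + k) := hg.1 _
      have h6 : 0 ≤ 2 * η * K / g (s₀ + k) := by positivity
      calc a ((k + 1) * K) * (2 * η * K / g (s₀ + k)) ≤
          a ((k + 1) * K - 1) * (2 * η * K / g (s₀ + k)) := mul_le_mul_of_nonneg_right h4 h6
        _ = 2 * η * K * (a ((k + 1) * K - 1) / g (s₀ + k)) := by ring
    · calc ∑ k ∈ range (Q + 1), a (k * K) * (if k ≤ M then (K:ℝ) / l m else 0) ≤
          ∑ k ∈ range (Q + 1), (if k ≤ M then Ω * (K / l m) else 0) := by
            apply Finset.sum_le_sum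
            intro k _
            split_ifs
            · exact mul_le_mul_of_nonneg_right (haΩ _) (by positivity)
            · simp
        _ ≤ (M + 1) * (Ω * (K / l m)) := sum_ite_le _ _ (by positivity)
        _ = (M + 1) * K * Ω / l m := by ring
  calc _ ≤ _ := e1
    _ ≤ _ := e2
    _ ≤ _ := e3
    _ ≤ _ := e4

/-- Sorting a family. -/
theorem exists_sorted {a b : ℝ} {n : ℕ} {s t : ℕ → ℝ} (hF : Family a b n s t) (f : ℝ → ℝ)
    {w : ℕ → ℝ} (hw : Antitone w) :
    ∃ s' t' : ℕ → ℝ, Family a b n s' t' ∧ (∀ i < n, ∃ j < n, s' i = s j ∧ t' i = t j) ∧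
      (∀ i j, i ≤ j → j < n → |f (t' j) - f (s' j)| ≤ |f (t' i) - f (s' i)|) ∧
      ∑ i ∈ range n, |f (t i) - f (s i)| * w i ≤ ∑ i ∈ range n, |f (t' i) - f (s' i)| * w i := by
  classical
  let v : Fin n → ℝ := fun i => -|f (t i) - f (s i)|
  let σ : Equiv.Perm (Fin n) := Tuple.sort v
  have hσ : Monotone (v ∘ σ) := Tuple.monotone_sort v
  let s' : ℕ → ℝ := fun i => if h : i < n then s (σ ⟨i, h⟩) else a
  let t' : ℕ → ℝ := fun i => if h : i < n then t (σ ⟨i, h⟩) else a
  have hs' : ∀ i (h : i < n), s' i = s (σ ⟨i, h⟩) := fun i h => by simp only [s', dif_pos h]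
  have ht' : ∀ i (h : i < n), t' i = t (σ ⟨i, h⟩) := fun i h => by simp only [t', dif_pos h]
  refine ⟨s', t', ⟨?_, ?_⟩, ?_, ?_, ?_⟩
  · intro i hi
    rw [hs' i hi, ht' i hi]
    exact hF.1 _ (σ ⟨i, hi⟩).2
  · intro i hi j hj hij
    rw [hs' i hi, ht' i hi, hs' j hj, ht' j hj]
    apply hF.2 _ (σ ⟨i, hi⟩).2 _ (σ ⟨j, hj⟩).2
    intro h
    apply hij
    have := σ.injective (Fin.ext h)
    simpa using this
  · intro i hi
    exact ⟨σ ⟨i, hi⟩, (σ ⟨i, hi⟩).2, hs' i hi, ht' i hi⟩
  · intro i j hij hj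
    have hi : i < n := lt_of_le_of_lt hij hj
    rw [hs' i hi, ht' i hi, hs' j hj, ht' j hj]
    have := hσ (show (⟨i, hi⟩ : Fin n) ≤ ⟨j, hj⟩ from hij)
    simp only [Function.comp, v] at this
    linarith
  · rw [Finset.sum_range, Finset.sum_range]
    have hmono : Monovary (fun i : Fin n => |f (t' i) - f (s' i)|) (fun i : Fin n => w i) := by
      intro i j hij
      have hji : j ≤ i := by
        by_contra h
        push Not at h
        have : w j ≤ w i := hw (show (i:ℕ) ≤ j from h.le)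
        linarith
      have := hσ hji
      simp only [Function.comp, v] at this
      show |f (t' i) - f (s' i)| ≤ |f (t' j) - f (s' j)|
      rw [hs' i i.2, ht' i i.2, hs' j j.2, ht' j j.2]
      simpa using this
    have h := hmono.sum_comp_perm_mul_le_sum_mul (σ := σ⁻¹)
    refine le_trans (le_of_eq ?_) h
    apply Finset.sum_congr rfl
    intro i _
    rw [hs' _ (σ⁻¹ i).2, ht' _ (σ⁻¹ i).2]
    simp

/-- Removing the intervals which contain a point of `E` in their interior. -/
theorem exists_avoid {a b : ℝ} (hab : a ≤ b) {n : ℕ} {s t : ℕ → ℝ} (hF : Family a b n s t)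
    (f : ℝ → ℝ) {Ω : ℝ} (hΩ : ∀ x y, a ≤ x → x ≤ y → y ≤ b → |f y - f x| ≤ Ω)
    {w : ℕ → ℝ} (hw : Antitone w) (hw0 : ∀ i, 0 ≤ w i) (E : Finset ℝ) :
    ∃ s' t' : ℕ → ℝ, Family a b n s' t' ∧ (∀ i < n, ∀ e ∈ E, e ≤ s' i ∨ t' i ≤ e) ∧
      ∑ i ∈ range n, |f (t i) - f (s i)| * w i ≤
        ∑ i ∈ range n, |f (t' i) - f (s' i)| * w i + E.card * Ω * w 0 := by
  classical
  have hΩ0 : 0 ≤ Ω := le_trans (abs_nonneg _) (hΩ a a le_rfl le_rfl hab)
  let P : ℕ → Prop := fun i => ∃ e ∈ E, s i < e ∧ e < t i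
  let s' : ℕ → ℝ := fun i => if P i then a else s i
  let t' : ℕ → ℝ := fun i => if P i then a else t i
  refine ⟨s', t', ⟨?_, ?_⟩, ?_, ?_⟩
  · intro i hi
    by_cases h : P i
    · simp only [s', t', if_pos h]; exact ⟨le_rfl, le_rfl, hab⟩
    · simp only [s', t', if_neg h]; exact hF.1 i hi
  · intro i hi j hj hij
    by_cases h : P i
    · left
      simp only [s', t', if_pos h]
      by_cases h' : P j
      · simp only [if_pos h']; exact le_rfl
      · simp only [if_neg h']; exact (hF.1 j hj).1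
    · by_cases h' : P j
      · right
        simp only [s', t', if_pos h', if_neg h]; exact (hF.1 i hi).1
      · simp only [s', t', if_neg h', if_neg h]
        exact hF.2 i hi j hj hij
  · intro i hi e he
    by_cases h : P i
    · simp only [s', t', if_pos h]; exact le_total _ _
    · simp only [s', t', if_neg h]
      by_contra h2
      push Not at h2
      exact h ⟨e, he, h2.1, h2.2⟩
  · have h1 : ∀ i ∈ range n, |f (t i) - f (s i)| * w i ≤
        |f (t' i) - f (s' i)| * w i + (if P i then Ω * w 0 else 0) := by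
      intro i hi
      rw [Finset.mem_range] at hi
      by_cases h : P i
      · simp only [s', t', if_pos h]
        have h2 := hΩ (s i) (t i) (hF.1 i hi).1 (hF.1 i hi).2.1 (hF.1 i hi).2.2
        have h3 : |f (t i) - f (s i)| * w i ≤ Ω * w 0 :=
          mul_le_mul h2 (hw (Nat.zero_le _)) (hw0 _) hΩ0
        simp only [sub_self, abs_zero, zero_mul, zero_add]
        exact h3
      · simp only [s', t', if_neg h]; simp
    refine le_trans (Finset.sum_le_sum h1) ?_
    rw [Finset.sum_add_distrib]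
    have h4 : ∑ i ∈ range n, (if P i then Ω * w 0 else 0) ≤ E.card * Ω * w 0 := by
      rw [← Finset.sum_filter, Finset.sum_const, nsmul_eq_mul]
      have hc : ((range n).filter P).card ≤ E.card := by
        have hsub : (range n).filter P ⊆
            E.biUnion (fun e => (range n).filter (fun i => s i < e ∧ e < t i)) := by
          intro i hi
          rw [Finset.mem_filter] at hi
          obtain ⟨hi, e, he, h5⟩ := hi
          rw [Finset.mem_biUnion]
          exact ⟨e, he, Finset.mem_filter.2 ⟨hi, h5⟩⟩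
        refine le_trans (Finset.card_le_card hsub) ?_
        refine le_trans (Finset.card_biUnion_le_card_mul _ _ 1 ?_) (by simp)
        intro e _
        rw [Finset.card_le_one]
        intro i hi j hj
        rw [Finset.mem_filter, Finset.mem_range] at hi hj
        by_contra hij
        rcases hF.2 i hi.1 j hj.1 hij with h | h
        · linarith [hi.2.2, hj.2.1]
        · linarith [hi.2.1, hj.2.2]
      have hc' : (((range n).filter P).card : ℝ) ≤ E.card := by exact_mod_cast hc
      rw [mul_assoc]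
      exact mul_le_mul_of_nonneg_right hc' (mul_nonneg hΩ0 (hw0 0))
    linarith

/-- The step lemma. -/
theorem step {a b : ℝ} (hab : a ≤ b) {g l : ℕ → ℝ} (hg : LambdaSeq g) (hl : LambdaSeq l)
    (hlt : Tendsto l atTop atTop)
    {f : ℝ → ℝ} {Ω : ℝ} (hΩ : ∀ x y, a ≤ x → x ≤ y → y ≤ b → |f y - f x| ≤ Ω)
    {c η : ℝ} (hc : 0 < c) (hη : 0 < η) {K n₀ : ℕ} (hK : 1 ≤ K)
    (hcr : ∀ n ≥ n₀, ∑ i ∈ range (K * n), 1 / l i ≤ η * K * ∑ i ∈ range n, 1 / g i)
    (hbad : ∀ m : ℕ, ∃ n s t, Family a b n s t ∧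
      c < ∑ i ∈ range n, |f (t i) - f (s i)| / l (i + m))
    (E : Finset ℝ) (s₀ : ℕ) :
    ∃ (N : ℕ) (s t : ℕ → ℝ), Family a b N s t ∧
      (∀ i j, i ≤ j → j < N → |f (t j) - f (s j)| ≤ |f (t i) - f (s i)|) ∧
      (∀ i < N, ∀ e ∈ E, e ≤ s i ∨ t i ≤ e) ∧
      c / (4 * η * K) ≤ ∑ k ∈ range (N / K),
        |f (t ((k + 1) * K - 1)) - f (s ((k + 1) * K - 1))| / g (s₀ + k) := by
  have hKr : (0:ℝ) < K := by exact_mod_cast hK
  have hΩ0 : 0 ≤ Ω := le_trans (abs_nonneg _) (hΩ a a le_rfl le_rfl hab)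
  -- choose M
  obtain ⟨M₁, hM₁⟩ := (Filter.tendsto_atTop_atTop.1 hg.2.2)
    (2 * ∑ i ∈ range s₀, 1 / g i + 1 / g 0)
  let M := max M₁ n₀
  have h1 : ∀ n, M + 2 ≤ n → ∑ i ∈ range (K * n), 1 / l i ≤ η * K * ∑ i ∈ range n, 1 / g i := by
    intro n hn
    exact hcr n (by have := le_max_right M₁ n₀; omega)
  have h2 : ∀ n, M + 2 ≤ n → 2 * ∑ i ∈ range s₀, 1 / g i + 1 / g 0 ≤
      ∑ i ∈ range (s₀ + (n - 1)), 1 / g i := by
    intro n hn
    exact hM₁ _ (by have := le_max_left M₁ n₀; omega)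
  obtain ⟨m, hm⟩ := (Filter.tendsto_atTop_atTop.1 hlt)
    (2 * (E.card + (M + 1) * K) * Ω / c + 1)
  have hm' := hm m le_rfl
  have hlm : 0 < l m := hl.1 m
  have hsmall : (E.card + (M + 1) * K) * Ω / l m ≤ c / 2 := by
    rw [div_le_iff₀ hlm]
    have : 2 * (E.card + (M + 1) * K) * Ω / c ≤ l m := by linarith
    rw [div_le_iff₀ hc] at this
    linarith
  obtain ⟨n, s, t, hF, hs⟩ := hbad m
  have hw : Antitone (fun i => 1 / l (i + m)) :=
    fun i j hij => one_div_le_one_div_of_le (hl.1 _) (hl.2.1 (by omega))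
  have hw0 : ∀ i, 0 ≤ (fun i => 1 / l (i + m)) i := fun i => (one_div_pos.2 (hl.1 _)).le
  obtain ⟨s1, t1, hF1, hE1, hs1⟩ := exists_avoid hab hF f hΩ hw hw0 E
  obtain ⟨s2, t2, hF2, hsub, hsort, hs2⟩ := exists_sorted hF1 f hw
  refine ⟨n, s2, t2, hF2, hsort, ?_, ?_⟩
  · intro i hi e he
    obtain ⟨j, hj, hsj, htj⟩ := hsub i hi
    rw [hsj, htj]
    exact hE1 j hj e he
  · let A : ℕ → ℝ := fun i => if i < n then |f (t2 i) - f (s2 i)| else 0
    have hA0 : ∀ i, 0 ≤ A i := by
      intro i; simp only [A]; split_ifs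
      · exact abs_nonneg _
      · exact le_rfl
    have hAΩ : ∀ i, A i ≤ Ω := by
      intro i; simp only [A]; split_ifs with h
      · exact hΩ _ _ (hF2.1 i h).1 (hF2.1 i h).2.1 (hF2.1 i h).2.2
      · exact hΩ0
    have hAanti : Antitone A := by
      intro i j hij
      simp only [A]
      by_cases h : j < n
      · rw [if_pos h, if_pos (by omega)]
        exact hsort i j hij h
      · rw [if_neg h]; split_ifs
        · exact abs_nonneg _
        · exact le_rfl
    have hAN : ∀ i, n ≤ i → A i = 0 := by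
      intro i hi; simp only [A]; rw [if_neg (by omega)]
    have hcore := core hg hl hK (N := n) (m := m) (s₀ := s₀) (M := M) hη hA0 hAΩ hAanti hAN h1 h2
    have h3 : ∑ i ∈ range n, A i * (1 / l (i + m)) =
        ∑ i ∈ range n, |f (t2 i) - f (s2 i)| * (1 / l (i + m)) := by
      apply Finset.sum_congr rfl
      intro i hi
      rw [Finset.mem_range] at hi
      simp only [A, if_pos hi]
    have h4 : ∑ k ∈ range (n / K), A ((k + 1) * K - 1) / g (s₀ + k) =
        ∑ k ∈ range (n / K), |f (t2 ((k + 1) * K - 1)) - f (s2 ((k + 1) * K - 1))| /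
          g (s₀ + k) := by
      apply Finset.sum_congr rfl
      intro k hk
      rw [Finset.mem_range] at hk
      have h5 : (k + 1) * K ≤ n := by
        calc (k + 1) * K ≤ (n / K) * K := Nat.mul_le_mul_right _ hk
          _ ≤ n := Nat.div_mul_le_self _ _
      have h6 : (k + 1) * K - 1 < n := by
        have : 1 ≤ (k + 1) * K := Nat.mul_pos (by omega) (by omega)
        omega
      simp only [A, if_pos h6]
    rw [h3, h4] at hcore
    have h5 : ∑ i ∈ range n, |f (t i) - f (s i)| / l (i + m) =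
        ∑ i ∈ range n, |f (t i) - f (s i)| * (1 / l (i + m)) := by
      apply Finset.sum_congr rfl
      intro i _
      ring
    rw [h5] at hs
    simp only [zero_add] at hs1
    have h6 : (E.card * Ω * (1 / l m)) + (M + 1) * K * Ω / l m =
        (E.card + (M + 1) * K) * Ω / l m := by ring
    rw [div_le_iff₀ (by positivity)]
    have h7 : ((max M₁ n₀ : ℕ) : ℝ) = (M : ℝ) := rfl
    nlinarith [hs, hs1, hs2, hcore, hsmall, h6]

end Pool.Agent.V1185.GB
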