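import Pool.Agent.V1185.GB.Step

open Finset Filter Topology
open scoped ENNReal

namespace Pool.Agent.V1185.GB

/-- Iterating the step lemma. -/
theorem exists_families {a b : ℝ} {f : ℝ → ℝ} {g : ℕ → ℝ} {K : ℕ} {w : ℝ}
    (H : ∀ (E : Finset ℝ) (s₀ : ℕ), ∃ (N : ℕ) (s t : ℕ → ℝ), Family a b N s t ∧
      (∀ i j, i ≤ j → j < N → |f (t j) - f (s j)| ≤ |f (t i) - f (s i)|) ∧
      (∀ i < N, ∀ e ∈ E, e ≤ s i ∨ t i ≤ e) ∧
      w ≤ ∑ k ∈ range (N / K),
        |f (t ((k + 1) * K - 1)) - f (s ((k + 1) * K - 1))| / g (s₀ + k)) :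
    ∃ (N : ℕ → ℕ) (s t : ℕ → ℕ → ℝ) (r : ℕ → ℕ), (∀ j, Family a b (N j) (s j) (t j)) ∧
      (∀ q i j, i ≤ j → j < N q → |f (t q j) - f (s q j)| ≤ |f (t q i) - f (s q i)|) ∧
      (∀ q' q, q' < q → ∀ i < N q, ∀ y < N q',
        (s q' y ≤ s q i ∨ t q i ≤ s q' y) ∧ (t q' y ≤ s q i ∨ t q i ≤ t q' y)) ∧
      (∀ q' q, q' < q → r q' + N q' / K ≤ r q) ∧
      (∀ q, w ≤ ∑ k ∈ range (N q / K),
        |f (t q ((k + 1) * K - 1)) - f (s q ((k + 1) * K - 1))| / g (r q + k)) := by
  classical
  choose N s t h1 h2 h3 h4 using H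
  let st : ℕ → Finset ℝ × ℕ := fun j => Nat.rec (∅, 0) (fun _ p =>
    (p.1 ∪ (range (N p.1 p.2)).image (s p.1 p.2) ∪ (range (N p.1 p.2)).image (t p.1 p.2),
      p.2 + N p.1 p.2 / K)) j
  have hst : ∀ j, st (j + 1) =
    ((st j).1 ∪ (range (N (st j).1 (st j).2)).image (s (st j).1 (st j).2) ∪
      (range (N (st j).1 (st j).2)).image (t (st j).1 (st j).2),
      (st j).2 + N (st j).1 (st j).2 / K) := fun j => rfl
  have hE : ∀ q' q, q' < q → ((st q').1 ⊆ (st q).1 ∧
      (range (N (st q').1 (st q').2)).image (s (st q').1 (st q').2) ⊆ (st q).1 ∧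
      (range (N (st q').1 (st q').2)).image (t (st q').1 (st q').2) ⊆ (st q).1 ∧
      (st q').2 + N (st q').1 (st q').2 / K ≤ (st q).2) := by
    intro q' q hq
    induction q with
    | zero => omega
    | succ q ih =>
      rw [hst q]
      rcases Nat.lt_succ_iff_lt_or_eq.1 hq with h | h
      · obtain ⟨i1, i2, i3, i4⟩ := ih h
        have hsub : (st q).1 ⊆ (st q).1 ∪
            (range (N (st q).1 (st q).2)).image (s (st q).1 (st q).2) ∪
            (range (N (st q).1 (st q).2)).image (t (st q).1 (st q).2) := by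
          intro x hx
          exact Finset.mem_union_left _ (Finset.mem_union_left _ hx)
        exact ⟨i1.trans hsub, i2.trans hsub, i3.trans hsub, le_trans i4 (Nat.le_add_right _ _)⟩
      · subst h
        refine ⟨?_, ?_, ?_, le_rfl⟩
        · intro x hx
          exact Finset.mem_union_left _ (Finset.mem_union_left _ hx)
        · intro x hx
          exact Finset.mem_union_left _ (Finset.mem_union_right _ hx)
        · intro x hx
          exact Finset.mem_union_right _ hx
  refine ⟨fun q => N (st q).1 (st q).2, fun q => s (st q).1 (st q).2,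
    fun q => t (st q).1 (st q).2, fun q => (st q).2, fun q => h1 _ _, fun q => h2 _ _, ?_,
    fun q' q hq => (hE q' q hq).2.2.2, fun q => h4 _ _⟩
  intro q' q hq i hi y hy
  obtain ⟨_, e2, e3, _⟩ := hE q' q hq
  have m1 : s (st q').1 (st q').2 y ∈ (st q).1 :=
    e2 (Finset.mem_image_of_mem _ (Finset.mem_range.2 hy))
  have m2 : t (st q').1 (st q').2 y ∈ (st q).1 :=
    e3 (Finset.mem_image_of_mem _ (Finset.mem_range.2 hy))
  exact ⟨h3 _ _ i hi _ m1, h3 _ _ i hi _ m2⟩

theorem count_update {J K : ℕ} {j j' : Fin J} (hj : j ≠ j') (S : Finset (Fin J → Fin K))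
    (hS : ∀ κ ∈ S, ∀ κ' ∈ S, κ j = κ' j → κ j' = κ' j') : S.card * K ≤ K ^ J := by
  classical
  have h1 : (S ×ˢ (Finset.univ : Finset (Fin K))).card ≤
      (Finset.univ : Finset (Fin J → Fin K)).card := by
    apply Finset.card_le_card_of_injOn (fun p => Function.update p.1 j' p.2)
    · intro x _; exact Finset.mem_coe.2 (Finset.mem_univ _)
    · rintro ⟨κ, x⟩ h ⟨κ', x'⟩ h' heq
      simp only [Finset.coe_product, Set.mem_prod, Finset.mem_coe] at h h'
      simp only at heq
      have e1 : x = x' := by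
        have := congrFun heq j'
        simpa using this
      have e2 : ∀ i, i ≠ j' → κ i = κ' i := by
        intro i hi
        have := congrFun heq i
        simpa [Function.update_of_ne hi] using this
      have e3 : κ j' = κ' j' := hS κ h.1 κ' h'.1 (e2 j hj)
      have e4 : κ = κ' := by
        funext i
        by_cases hi : i = j'
        · rw [hi]; exact e3
        · exact e2 i hi
      rw [e1, e4]
  rw [Finset.card_product, Finset.card_univ, Finset.card_univ, Fintype.card_fun,
    Fintype.card_fin, Fintype.card_fin] at h1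
  exact h1

/-- The averaging argument. -/
theorem averaging {a b : ℝ} (hab : a ≤ b) {f : ℝ → ℝ} {g : ℕ → ℝ} (hg : LambdaSeq g)
    {K : ℕ} (hK : 1 ≤ K) {w C : ℝ}
    (hC : ∀ n s t, Family a b n s t → ∑ i ∈ range n, |f (t i) - f (s i)| / g i ≤ C)
    (H : ∀ (E : Finset ℝ) (s₀ : ℕ), ∃ (N : ℕ) (s t : ℕ → ℝ), Family a b N s t ∧
      (∀ i j, i ≤ j → j < N → |f (t j) - f (s j)| ≤ |f (t i) - f (s i)|) ∧
      (∀ i < N, ∀ e ∈ E, e ≤ s i ∨ t i ≤ e) ∧
      w ≤ ∑ k ∈ range (N / K),
        |f (t ((k + 1) * K - 1)) - f (s ((k + 1) * K - 1))| / g (s₀ + k)) :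
    ((K / 2 + 1 : ℕ) : ℝ) * w ≤ 2 * C := by
  classical
  obtain ⟨N, s, t, r, hF, hsort, hends, hr, hw⟩ := exists_families H
  set J := K / 2 + 1 with hJ
  -- index set
  let P : Finset (Fin J × ℕ) :=
    (Finset.univ : Finset (Fin J)).biUnion (fun j => (range (N j / K)).image (fun k => (j, k)))
  have hP : ∀ p : Fin J × ℕ, p ∈ P ↔ p.2 < N p.1 / K := by
    intro p
    simp only [P, Finset.mem_biUnion, Finset.mem_univ, true_and, Finset.mem_image,
      Finset.mem_range]
    constructor
    · rintro ⟨j, k, hk, rfl⟩; exact hk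
    · intro h; exact ⟨p.1, p.2, h, rfl⟩
  let idx : (Fin J → Fin K) → Fin J × ℕ → ℕ := fun κ p => p.2 * K + κ p.1
  have hidx : ∀ κ p, p ∈ P → idx κ p < N p.1 := by
    intro κ p hp
    rw [hP] at hp
    have h1 : (κ p.1 : ℕ) < K := (κ p.1).2
    have h2 : (p.2 + 1) * K ≤ N p.1 := by
      calc (p.2 + 1) * K ≤ (N p.1 / K) * K := Nat.mul_le_mul_right _ hp
        _ ≤ N p.1 := Nat.div_mul_le_self _ _
    simp only [idx]
    rw [Nat.add_mul] at h2
    omega
  let ov : (Fin J → Fin K) → Fin J × ℕ → Fin J × ℕ → Prop := fun κ p q =>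
    s q.1 (idx κ q) < t p.1 (idx κ p) ∧ s p.1 (idx κ p) < t q.1 (idx κ q)
  let bad : (Fin J → Fin K) → Fin J × ℕ → Prop := fun κ p =>
    ∃ q ∈ P, q.1 < p.1 ∧ ov κ p q
  let T : (Fin J → Fin K) → Finset (Fin J × ℕ) := fun κ => P.filter (fun p => ¬ bad κ p)
  let v : Fin J × ℕ → ℝ := fun p =>
    |f (t p.1 ((p.2 + 1) * K - 1)) - f (s p.1 ((p.2 + 1) * K - 1))| / g (r p.1 + p.2)
  have hv0 : ∀ p, 0 ≤ v p := fun p => div_nonneg (abs_nonneg _) (hg.1 _).le
  -- each κ
  have hκ : ∀ κ, ∑ p ∈ T κ, v p ≤ C := by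
    intro κ
    have h1 : ∑ p ∈ T κ, v p ≤
        ∑ p ∈ T κ, |f (t p.1 (idx κ p)) - f (s p.1 (idx κ p))| / g (r p.1 + p.2) := by
      apply Finset.sum_le_sum
      intro p hp
      have hp' : p ∈ P := (Finset.mem_filter.1 hp).1
      rw [hP] at hp'
      have h2 : (p.2 + 1) * K ≤ N p.1 := by
        calc (p.2 + 1) * K ≤ (N p.1 / K) * K := Nat.mul_le_mul_right _ hp'
          _ ≤ N p.1 := Nat.div_mul_le_self _ _
      have h3 : (κ p.1 : ℕ) < K := (κ p.1).2
      have h4 : (p.2 + 1) * K = p.2 * K + K := by ring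
      apply div_le_div_of_nonneg_right _ (hg.1 _).le
      apply hsort
      · simp only [idx]; omega
      · omega
    refine le_trans h1 ?_
    refine sum_le_of_rank hab hC (T κ) (fun p => s p.1 (idx κ p)) (fun p => t p.1 (idx κ p))
      (fun p => r p.1 + p.2) ?_ ?_ ?_
    · intro p hp q hq hpq
      have hp' : p ∈ P := (Finset.mem_filter.1 hp).1
      have hq' : q ∈ P := (Finset.mem_filter.1 hq).1
      rw [hP] at hp' hq'
      have h1 : p.1 = q.1 := by
        rcases lt_trichotomy p.1 q.1 with h | h | h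
        · have := hr p.1 q.1 h
          omega
        · exact h
        · have := hr q.1 p.1 h
          omega
      have h2 : p.2 = q.2 := by rw [h1] at hpq; omega
      exact Prod.ext h1 h2
    · intro p hp
      have hp' : p ∈ P := (Finset.mem_filter.1 hp).1
      exact (hF p.1).1 _ (hidx κ p hp')
    · intro p hp q hq hpq
      have hp' := Finset.mem_filter.1 hp
      have hq' := Finset.mem_filter.1 hq
      rcases lt_trichotomy p.1 q.1 with h | h | h
      · have h1 := hq'.2
        by_contra h2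
        push Not at h2
        exact h1 ⟨p, hp'.1, h, h2.2, h2.1⟩
      · have h1 : p.2 ≠ q.2 := fun h3 => hpq (Prod.ext h h3)
        have h2 : idx κ p ≠ idx κ q := by
          intro h3
          apply h1
          simp only [idx] at h3
          rw [h] at h3
          have : p.2 * K = q.2 * K := by omega
          exact Nat.eq_of_mul_eq_mul_right (by omega) this
        have h3 := (hF q.1).2 (idx κ p) (by rw [← h]; exact hidx κ p hp'.1) (idx κ q)
          (hidx κ q hq'.1) h2
        rw [h]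
        exact h3
      · have h1 := hp'.2
        by_contra h2
        push Not at h2
        exact h1 ⟨q, hq'.1, h, h2.1, h2.2⟩
  -- counting
  have hcount : ∀ p ∈ P, 2 * (Finset.univ.filter (fun κ => bad κ p)).card ≤ K ^ J := by
    intro p hp
    have hsub : Finset.univ.filter (fun κ => bad κ p) ⊆
        (Finset.univ.filter (fun j' : Fin J => j' < p.1)).biUnion (fun j' =>
          Finset.univ.filter (fun κ => ∃ q ∈ P, q.1 = j' ∧ ov κ p q)) := by
      intro κ hk
      rw [Finset.mem_filter] at hk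
      obtain ⟨q, hq, hlt, hov⟩ := hk.2
      rw [Finset.mem_biUnion]
      exact ⟨q.1, by simp [hlt], by
        rw [Finset.mem_filter]; exact ⟨Finset.mem_univ _, q, hq, rfl, hov⟩⟩
    have hone : ∀ j' ∈ Finset.univ.filter (fun j' : Fin J => j' < p.1),
        (Finset.univ.filter (fun κ : Fin J → Fin K => ∃ q ∈ P, q.1 = j' ∧ ov κ p q)).card * K ≤
          K ^ J := by
      intro j' hj'
      rw [Finset.mem_filter] at hj'
      apply count_update (j := p.1) (j' := j') (ne_of_gt hj'.2)
      intro κ hk κ' hk' heq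
      rw [Finset.mem_filter] at hk hk'
      obtain ⟨_, q, hq, hq1, hov⟩ := hk
      obtain ⟨_, q', hq', hq1', hov'⟩ := hk'
      have hi : idx κ p = idx κ' p := by simp only [idx]; rw [heq]
      have hlt : (q.1 : ℕ) < p.1 := by rw [hq1]; exact hj'.2
      have hqq : q.1 = q'.1 := by rw [hq1, hq1']
      have hy := hidx κ q hq
      have hy' := hidx κ' q' hq'
      have hpN := hidx κ p hp
      have hii : idx κ q = idx κ' q' := by
        by_contra hne
        have e1 := hends q.1 p.1 hlt (idx κ p) hpN (idx κ q) hy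
        rw [← hqq] at hy'
        have e2 := hends q.1 p.1 hlt (idx κ p) hpN (idx κ' q') hy'
        simp only [ov] at hov hov'
        rw [← hi, ← hqq] at hov'
        rcases (hF q.1).2 _ hy _ hy' hne with h | h
        · rcases e1.2 with h5 | h5
          · linarith [hov.2]
          · linarith [hov'.1]
        · rcases e2.2 with h5 | h5
          · linarith [hov'.2]
          · linarith [hov.1]
      simp only [idx] at hii
      rw [hq1, hq1'] at hii
      have h1 : (κ j' : ℕ) < K := (κ j').2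
      have h2 : (κ' j' : ℕ) < K := (κ' j').2
      apply Fin.ext
      have h3 := congrArg (fun x => x % K) hii
      simp only [Nat.mul_add_mod', Nat.mod_eq_of_lt h1, Nat.mod_eq_of_lt h2] at h3
      exact h3
    have hcard : (Finset.univ.filter (fun κ => bad κ p)).card * K ≤ (K / 2) * K ^ J := by
      calc (Finset.univ.filter (fun κ => bad κ p)).card * K ≤
          (∑ j' ∈ Finset.univ.filter (fun j' : Fin J => j' < p.1),
            (Finset.univ.filter
              (fun κ : Fin J → Fin K => ∃ q ∈ P, q.1 = j' ∧ ov κ p q)).card) * K :=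
            Nat.mul_le_mul_right _ (le_trans (Finset.card_le_card hsub) Finset.card_biUnion_le)
        _ = ∑ j' ∈ Finset.univ.filter (fun j' : Fin J => j' < p.1),
            (Finset.univ.filter
              (fun κ : Fin J → Fin K => ∃ q ∈ P, q.1 = j' ∧ ov κ p q)).card * K := by
            rw [Finset.sum_mul]
        _ ≤ ∑ j' ∈ Finset.univ.filter (fun j' : Fin J => j' < p.1), K ^ J :=
            Finset.sum_le_sum hone
        _ = (Finset.univ.filter (fun j' : Fin J => j' < p.1)).card * K ^ J := by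
            rw [Finset.sum_const, smul_eq_mul]
        _ ≤ (K / 2) * K ^ J := by
            apply Nat.mul_le_mul_right
            have : (Finset.univ.filter (fun j' : Fin J => j' < p.1)) = Finset.Iio p.1 := by
              ext x; simp
            rw [this, Fin.card_Iio]
            have := p.1.2
            omega
    have h5 : 2 * (Finset.univ.filter (fun κ => bad κ p)).card * K ≤ K ^ J * K := by
      calc 2 * (Finset.univ.filter (fun κ => bad κ p)).card * K =
          2 * ((Finset.univ.filter (fun κ => bad κ p)).card * K) := by ring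
        _ ≤ 2 * ((K / 2) * K ^ J) := Nat.mul_le_mul_left _ hcard
        _ = (2 * (K / 2)) * K ^ J := by ring
        _ ≤ K * K ^ J := Nat.mul_le_mul_right _ (Nat.mul_div_le K 2)
        _ = K ^ J * K := by ring
    exact Nat.le_of_mul_le_mul_right h5 (by omega)
  have hgood : ∀ p ∈ P, (K:ℝ) ^ J / 2 ≤ ((Finset.univ.filter (fun κ => ¬ bad κ p)).card : ℝ) := by
    intro p hp
    have h1 := hcount p hp
    have h2 := Finset.card_filter_add_card_filter_not (s := (Finset.univ : Finset (Fin J → Fin K)))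
      (fun κ => bad κ p)
    rw [Finset.card_univ, Fintype.card_fun, Fintype.card_fin, Fintype.card_fin] at h2
    have h3 : ((2 * (Finset.univ.filter (fun κ => bad κ p)).card : ℕ) : ℝ) ≤ ((K ^ J : ℕ) : ℝ) := by
      exact_mod_cast h1
    have h4 : (((Finset.univ.filter (fun κ => bad κ p)).card +
      (Finset.univ.filter (fun κ => ¬ bad κ p)).card : ℕ) : ℝ) = ((K ^ J : ℕ) : ℝ) := by
      exact_mod_cast h2
    push_cast at h3 h4
    linarith
  -- sum over κ
  have hsum1 : ∑ κ : Fin J → Fin K, ∑ p ∈ T κ, v p ≤ (K:ℝ) ^ J * C := by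
    calc ∑ κ : Fin J → Fin K, ∑ p ∈ T κ, v p ≤ ∑ _κ : Fin J → Fin K, C :=
          Finset.sum_le_sum (fun κ _ => hκ κ)
      _ = (K:ℝ) ^ J * C := by
          rw [Finset.sum_const, Finset.card_univ, Fintype.card_fun, Fintype.card_fin,
            Fintype.card_fin, nsmul_eq_mul]
          push_cast
          rfl
  have hsum2 : ∑ κ : Fin J → Fin K, ∑ p ∈ T κ, v p =
      ∑ p ∈ P, ((Finset.univ.filter (fun κ => ¬ bad κ p)).card : ℝ) * v p := by
    simp only [T, Finset.sum_filter]
    rw [Finset.sum_comm]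
    apply Finset.sum_congr rfl
    intro p _
    rw [← Finset.sum_filter, Finset.sum_const, nsmul_eq_mul]
  have hsum3 : (K:ℝ) ^ J / 2 * ∑ p ∈ P, v p ≤
      ∑ p ∈ P, ((Finset.univ.filter (fun κ => ¬ bad κ p)).card : ℝ) * v p := by
    rw [Finset.mul_sum]
    exact Finset.sum_le_sum (fun p hp => mul_le_mul_of_nonneg_right (hgood p hp) (hv0 p))
  have hsum4 : (J : ℝ) * w ≤ ∑ p ∈ P, v p := by
    have h1 : ∑ p ∈ P, v p = ∑ j : Fin J, ∑ k ∈ range (N j / K), v (j, k) := by
      simp only [P]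
      rw [Finset.sum_biUnion]
      · apply Finset.sum_congr rfl
        intro j _
        rw [Finset.sum_image]
        intro x _ y _ h
        exact (Prod.ext_iff.1 h).2
      · intro j _ j' _ hjj
        rw [Function.onFun, Finset.disjoint_left]
        intro x hx hx'
        rw [Finset.mem_image] at hx hx'
        obtain ⟨_, _, rfl⟩ := hx
        obtain ⟨_, _, h⟩ := hx'
        exact hjj (Prod.ext_iff.1 h).1.symm
    rw [h1]
    calc (J : ℝ) * w = ∑ _j : Fin J, w := by
          rw [Finset.sum_const, Finset.card_univ, Fintype.card_fin, nsmul_eq_mul]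
      _ ≤ _ := Finset.sum_le_sum (fun j _ => hw j)
  have hKJ : (0:ℝ) < (K:ℝ) ^ J := by
    have : (0:ℝ) < K := by exact_mod_cast hK
    positivity
  have h7 : (K:ℝ) ^ J / 2 * ((J : ℝ) * w) ≤ (K:ℝ) ^ J * C := by
    calc (K:ℝ) ^ J / 2 * ((J : ℝ) * w) ≤ (K:ℝ) ^ J / 2 * ∑ p ∈ P, v p :=
          mul_le_mul_of_nonneg_left hsum4 (by positivity)
      _ ≤ _ := hsum3
      _ = _ := hsum2.symm
      _ ≤ _ := hsum1
  have h8 : (K:ℝ) ^ J * ((J : ℝ) * w) ≤ (K:ℝ) ^ J * (2 * C) := by nlinarith
  exact le_of_mul_le_mul_left h8 hKJ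

/-- The criterion forces `λ_i → ∞`. -/
theorem tendsto_of_criterion {g l : ℕ → ℝ} (hg : LambdaSeq g) (hl : LambdaSeq l)
    (hcr : Criterion g l) : Tendsto l atTop atTop := by
  by_contra hnt
  have hbdd : ∃ B, 0 < B ∧ ∀ i, l i ≤ B := by
    rw [Filter.tendsto_atTop_atTop] at hnt
    push Not at hnt
    obtain ⟨B, hB⟩ := hnt
    refine ⟨max B 1, by positivity, ?_⟩
    intro i
    obtain ⟨j, hj, hlj⟩ := hB i
    exact le_trans (hl.2.1 hj) (le_trans hlj.le (le_max_left _ _))
  obtain ⟨B, hB, hlB⟩ := hbdd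
  have hg0 : 0 < g 0 := hg.1 0
  obtain ⟨K, hK, n₀, hn⟩ := hcr (g 0 / (2 * B)) (by positivity)
  have h1 := hn (n₀ + 1) (by omega)
  have hKr : (0:ℝ) < K := by exact_mod_cast hK
  have h2 : ((K * (n₀ + 1) : ℕ) : ℝ) * (1 / B) ≤ ∑ i ∈ range (K * (n₀ + 1)), 1 / l i := by
    calc ((K * (n₀ + 1) : ℕ) : ℝ) * (1 / B) = ∑ i ∈ range (K * (n₀ + 1)), 1 / B := by
          rw [Finset.sum_const, Finset.card_range, nsmul_eq_mul]
      _ ≤ _ := Finset.sum_le_sum (fun i _ => one_div_le_one_div_of_le (hl.1 i) (hlB i))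
  have h3 : ∑ i ∈ range (n₀ + 1), 1 / g i ≤ ((n₀ + 1 : ℕ) : ℝ) * (1 / g 0) := by
    calc ∑ i ∈ range (n₀ + 1), 1 / g i ≤ ∑ i ∈ range (n₀ + 1), 1 / g 0 :=
          Finset.sum_le_sum (fun i _ => one_div_le_one_div_of_le hg0 (hg.2.1 (Nat.zero_le _)))
      _ = _ := by rw [Finset.sum_const, Finset.card_range, nsmul_eq_mul]
  have h4 : g 0 / (2 * B) * K * ∑ i ∈ range (n₀ + 1), 1 / g i ≤
      g 0 / (2 * B) * K * (((n₀ + 1 : ℕ) : ℝ) * (1 / g 0)) :=
    mul_le_mul_of_nonneg_left h3 (by positivity)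
  have h5 : g 0 / (2 * B) * K * (((n₀ + 1 : ℕ) : ℝ) * (1 / g 0)) =
      ((K * (n₀ + 1) : ℕ) : ℝ) * (1 / B) / 2 := by
    push_cast
    field_simp
  have h6 : 0 < ((K * (n₀ + 1) : ℕ) : ℝ) * (1 / B) := by
    push_cast
    positivity
  linarith

theorem family_shift {a b : ℝ} {n : ℕ} {s t : ℕ → ℝ} (m : ℕ) (hF : Family a b n s t) :
    Family a b (n - m) (fun i => s (i + m)) (fun i => t (i + m)) := by
  constructor
  · intro i hi
    exact hF.1 (i + m) (by omega)
  · intro i hi j hj hij
    exact hF.2 (i + m) (by omega) (j + m) (by omega) (by omega)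

/-- Sufficiency of the criterion. -/
theorem sufficiency {a b : ℝ} (hab : a ≤ b) {g l : ℕ → ℝ} (hg : LambdaSeq g)
    (hl : LambdaSeq l) (hcr : Criterion g l) {f : ℝ → ℝ} (hf : BV a b g f) :
    BVc a b l f := by
  obtain ⟨C, hC0, hC⟩ := bv_iff.1 hf
  have hlt := tendsto_of_criterion hg hl hcr
  have hg0 : 0 < g 0 := hg.1 0
  have hΩ : ∀ x y, a ≤ x → x ≤ y → y ≤ b → |f y - f x| ≤ g 0 * C := by
    intro x y hx hxy hy
    have h := hC 1 (fun _ => x) (fun _ => y)
      ⟨fun i _ => ⟨hx, hxy, hy⟩, fun i hi j hj hij => by omega⟩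
    rw [Finset.sum_range_one, div_le_iff₀ hg0] at h
    linarith
  have key : ∀ c : ℝ, 0 < c → ∃ m : ℕ, ∀ n s t, Family a b n s t →
      ∑ i ∈ range n, |f (t i) - f (s i)| / l (i + m) ≤ c := by
    by_contra hcon
    push Not at hcon
    obtain ⟨c, hc, hbad⟩ := hcon
    have hη : 0 < c / (64 * (C + 1)) := by positivity
    obtain ⟨K, hK, n₀, hKn⟩ := hcr (c / (64 * (C + 1))) hη
    have hKr : (0:ℝ) < K := by exact_mod_cast hK
    have hav := averaging hab hg hK hC
      (step hab hg hl hlt hΩ hc hη hK hKn hbad)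
    have h1 : (K:ℝ) / 2 ≤ ((K / 2 + 1 : ℕ) : ℝ) := by
      have h2 : K ≤ 2 * (K / 2 + 1) := by omega
      have h3 : ((K : ℕ) : ℝ) ≤ ((2 * (K / 2 + 1) : ℕ) : ℝ) := by exact_mod_cast h2
      push_cast at h3 ⊢
      linarith
    have h2 : c / (4 * (c / (64 * (C + 1))) * K) = 16 * (C + 1) / K := by
      field_simp
      ring
    rw [h2] at hav
    have h3 : (K:ℝ) / 2 * (16 * (C + 1) / K) ≤
        ((K / 2 + 1 : ℕ) : ℝ) * (16 * (C + 1) / K) :=
      mul_le_mul_of_nonneg_right h1 (by positivity)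
    have h4 : (K:ℝ) / 2 * (16 * (C + 1) / K) = 8 * (C + 1) := by
      field_simp
      ring
    linarith
  refine ⟨?_, tendsto_of hl key⟩
  obtain ⟨m, hm⟩ := key 1 one_pos
  rw [bv_iff]
  refine ⟨m * (g 0 * C / l 0) + 1, ?_, ?_⟩
  · have := hl.1 0
    positivity
  · intro n s t hF
    have hl0 : 0 < l 0 := hl.1 0
    have h1 := hm (n - m) _ _ (family_shift m hF)
    have h2 : ∑ i ∈ range (min m n), |f (t i) - f (s i)| / l i ≤ m * (g 0 * C / l 0) := by
      calc ∑ i ∈ range (min m n), |f (t i) - f (s i)| / l i ≤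
          ∑ i ∈ range (min m n), g 0 * C / l 0 := by
            apply Finset.sum_le_sum
            intro i hi
            rw [Finset.mem_range] at hi
            have hi' : i < n := lt_of_lt_of_le hi (min_le_right _ _)
            have h3 := hΩ (s i) (t i) (hF.1 i hi').1 (hF.1 i hi').2.1 (hF.1 i hi').2.2
            exact div_le_div₀ (by positivity) h3 hl0 (hl.2.1 (Nat.zero_le _))
        _ = ((min m n : ℕ) : ℝ) * (g 0 * C / l 0) := by
            rw [Finset.sum_const, Finset.card_range, nsmul_eq_mul]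
        _ ≤ m * (g 0 * C / l 0) := by
            apply mul_le_mul_of_nonneg_right _ (by positivity)
            exact_mod_cast min_le_left m n
    have h3 : ∑ i ∈ range n, |f (t i) - f (s i)| / l i =
        ∑ i ∈ range (min m n), |f (t i) - f (s i)| / l i +
          ∑ i ∈ range (n - m), |f (t (i + m)) - f (s (i + m))| / l (i + m) := by
      by_cases h : n ≤ m
      · rw [min_eq_right h, Nat.sub_eq_zero_of_le h]; simp
      · push Not at h
        rw [min_eq_left h.le]
        obtain ⟨k, rfl⟩ : ∃ k, n = m + k := ⟨n - m, by omega⟩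
        rw [Finset.sum_range_add]
        simp only [Nat.add_sub_cancel_left]
        congr 1
        apply Finset.sum_congr rfl
        intro i _
        rw [add_comm m i]
    rw [h3]
    linarith

end Pool.Agent.V1185.GB
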